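import Pool.Agent.Helper1x.EC.Core
import Pool.Agent.Helper1x.EP.Field

/-!
# The parts of the matchings in the gates
-/

set_option autoImplicit false

namespace Pool.Agent.Helper1x.EC

open Finset Matrix Pool.Agent.Helper1x.EP

section mono

variable {n e : ℕ}

theorem mon_apply (σ : Fin e → Equiv.Perm (Fin n)) (A : Finset (Fin n)) (x : V n e) :
    mon σ A x = if (fun s => σ s x.1) = x.2 ∧ x.1 ∈ A then 1 else 0 := by
  classical
  rw [mon, Finsupp.finsetSum_apply]
  by_cases hx : x.1 ∈ A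
  · rw [Finset.sum_eq_single x.1]
    · rw [Finsupp.single_apply]
      by_cases h : (fun s => σ s x.1) = x.2
      · have h1 : (x.1, fun s => σ s x.1) = x := Prod.ext rfl h
        rw [if_pos h1, if_pos ⟨h, hx⟩]
      · have h1 : ¬ (x.1, fun s => σ s x.1) = x := fun h1 => h (congrArg Prod.snd h1)
        rw [if_neg h1, if_neg fun h2 => h h2.1]
    · intro i _ hi
      rw [Finsupp.single_apply, if_neg]
      intro h
      exact hi (congrArg Prod.fst h)
    · intro h
      exact absurd hx h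
  · rw [if_neg fun h => hx h.2]
    refine Finset.sum_eq_zero fun i hi => ?_
    rw [Finsupp.single_apply, if_neg]
    intro h
    apply hx
    rw [← h]
    exact hi

theorem mon_degree (σ : Fin e → Equiv.Perm (Fin n)) (A : Finset (Fin n)) : (mon σ A).degree = A.card := by
  rw [mon, map_sum, Finset.sum_congr rfl fun i _ => Finsupp.degree_single _ _, Finset.sum_const, smul_eq_mul, mul_one]

/-- A decomposition of the monomial comes from a distribution of its variables. -/
theorem split {ι : Type*} [Fintype ι] [DecidableEq ι] (σ : Fin e → Equiv.Perm (Fin n)) (A : Finset (Fin n))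
    (hA : A.Nonempty) (d : ι → V n e →₀ ℕ) (hd : ∑ v, d v = mon σ A) :
    ∃ g : Fin n → ι, ∀ v, d v = mon σ (A.filter fun i => g i = v) := by
  classical
  have hsum : ∀ x, ∑ v, d v x = if (fun s => σ s x.1) = x.2 ∧ x.1 ∈ A then 1 else 0 := by
    intro x
    rw [← mon_apply, ← hd, Finsupp.finsetSum_apply]
  have hex0 : ∀ i ∈ A, ∃ v, d v (i, fun s => σ s i) ≠ 0 := by
    intro i hi
    have h3 := hsum (i, fun s => σ s i)
    rw [if_pos ⟨rfl, hi⟩] at h3
    obtain ⟨v, _, hv⟩ := Finset.exists_ne_zero_of_sum_ne_zero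
      (h3.symm ▸ one_ne_zero : ∑ v, d v (i, fun s => σ s i) ≠ 0)
    exact ⟨v, hv⟩
  have hex : ∀ i, ∃ v, i ∈ A → d v (i, fun s => σ s i) ≠ 0 := by
    intro i
    by_cases hi : i ∈ A
    · obtain ⟨v, hv⟩ := hex0 i hi
      exact ⟨v, fun _ => hv⟩
    · obtain ⟨i0, hi0⟩ := hA
      obtain ⟨v, _⟩ := hex0 i0 hi0
      exact ⟨v, fun h => absurd h hi⟩
  choose g hg using hex
  refine ⟨g, fun v => ?_⟩
  ext x
  rw [mon_apply]
  have h3 := hsum x
  by_cases h4 : (fun s => σ s x.1) = x.2 ∧ x.1 ∈ A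
  · rw [if_pos h4] at h3
    have hx : x = (x.1, fun s => σ s x.1) := Prod.ext rfl h4.1.symm
    have h5 : d (g x.1) x ≠ 0 := by
      have := hg x.1 h4.2
      rwa [← hx] at this
    have h6 : d (g x.1) x + ∑ w ∈ univ.erase (g x.1), d w x = 1 := by
      rw [Finset.add_sum_erase univ (fun w => d w x) (mem_univ _), h3]
    by_cases h7 : g x.1 = v
    · rw [if_pos ⟨h4.1, mem_filter.2 ⟨h4.2, h7⟩⟩, ← h7]
      omega
    · have h9 : ¬ ((fun s => σ s x.1) = x.2 ∧ x.1 ∈ A.filter fun i => g i = v) := fun h8 => h7 (mem_filter.1 h8.2).2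
      rw [if_neg h9]
      have h8 : ∑ w ∈ univ.erase (g x.1), d w x = 0 := by omega
      exact (Finset.sum_eq_zero_iff.1 h8) v (mem_erase.2 ⟨Ne.symm h7, mem_univ _⟩)
  · rw [if_neg h4] at h3
    rw [if_neg fun h8 => h4 ⟨h8.1, (mem_filter.1 h8.2).1⟩]
    exact (Finset.sum_eq_zero_iff.1 h3) v (mem_univ _)

theorem split2 {σ : Fin e → Equiv.Perm (Fin n)} {A : Finset (Fin n)} {m1 m2 : V n e →₀ ℕ} (h : m1 + m2 = mon σ A) :
    ∃ A1 A2 : Finset (Fin n), A1 ∪ A2 = A ∧ m1 = mon σ A1 ∧ m2 = mon σ A2 := by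
  classical
  rcases A.eq_empty_or_nonempty with rfl | hA
  · have h0 : m1 + m2 = 0 := by rw [h, mon, Finset.sum_empty]
    have h1 : m1 = 0 ∧ m2 = 0 := add_eq_zero.1 h0
    refine ⟨∅, ∅, Finset.union_empty _, ?_, ?_⟩
    · rw [h1.1, mon, Finset.sum_empty]
    · rw [h1.2, mon, Finset.sum_empty]
  · obtain ⟨g, hg⟩ := split σ A hA (fun b : Bool => if b then m1 else m2) (by
      rw [Fintype.sum_bool]
      simpa using h)
    refine ⟨A.filter fun i => g i = true, A.filter fun i => g i = false, ?_, ?_, ?_⟩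
    · ext i
      rw [mem_union, mem_filter, mem_filter]
      constructor
      · rintro (h1 | h1)
        · exact h1.1
        · exact h1.1
      · intro h1
        cases hgi : g i
        · exact Or.inr ⟨h1, rfl⟩
        · exact Or.inl ⟨h1, rfl⟩
    · simpa using hg true
    · simpa using hg false

end mono

section earlier

variable {n e : ℕ} {K : Type*} [Field K]

/-- a part of a matching occurs in a gate -/
def Occ (p : ℕ → MvPolynomial (V n e) K) (k : ℕ) (σ : Fin e → Equiv.Perm (Fin n)) (A : Finset (Fin n)) : Prop :=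
  MvPolynomial.coeff (mon σ A) (p k) ≠ 0

theorem part_of_earlier {p : ℕ → MvPolynomial (V n e) K} {k : ℕ} {f : MvPolynomial (V n e) K} (hf : f ∈ Earlier p k)
    {σ : Fin e → Equiv.Perm (Fin n)} {A : Finset (Fin n)} (h : MvPolynomial.coeff (mon σ A) f ≠ 0) :
    Part (Occ p) k σ A := by
  classical
  by_contra hcon
  unfold Part at hcon
  push Not at hcon
  obtain ⟨h1, h2⟩ := hcon
  apply h
  have h3 : Earlier p k ≤ LinearMap.ker (MvPolynomial.lcoeff K (mon σ A)) := by
    refine Submodule.span_le.2 ?_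
    rintro x ((rfl | ⟨y, rfl⟩) | ⟨j, hj, rfl⟩)
    · change MvPolynomial.coeff (mon σ A) 1 = 0
      rw [MvPolynomial.coeff_one, if_neg]
      intro h4
      have h5 := mon_degree σ A
      rw [← h4, map_zero] at h5
      omega
    · change MvPolynomial.coeff (mon σ A) (MvPolynomial.X y) = 0
      rw [MvPolynomial.coeff_X, if_neg]
      intro h4
      have h5 := mon_degree σ A
      rw [← h4, Finsupp.degree_single] at h5
      omega
    · change MvPolynomial.coeff (mon σ A) (p j) = 0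
      by_contra h4
      exact h2 j hj h4
  exact h3 hf

theorem coeff_mul_ne {X : Type*} {W : Submodule K (MvPolynomial X K)} {f : MvPolynomial X K} (hf : f ∈ W * W)
    {m : X →₀ ℕ} (h : MvPolynomial.coeff m f ≠ 0) : ∃ m1 m2, m1 + m2 = m ∧
      (∃ f1 ∈ W, MvPolynomial.coeff m1 f1 ≠ 0) ∧ ∃ f2 ∈ W, MvPolynomial.coeff m2 f2 ≠ 0 := by
  classical
  by_contra hcon
  apply h
  have h3 : W * W ≤ LinearMap.ker (MvPolynomial.lcoeff K m) := by
    refine Submodule.mul_le.2 fun f1 hf1 f2 hf2 => ?_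
    change MvPolynomial.coeff m (f1 * f2) = 0
    rw [MvPolynomial.coeff_mul]
    refine Finset.sum_eq_zero fun y hy => ?_
    rw [Finset.HasAntidiagonal.mem_antidiagonal] at hy
    by_contra h4
    exact hcon ⟨y.1, y.2, hy, ⟨f1, hf1, left_ne_zero_of_mul h4⟩, f2, hf2, right_ne_zero_of_mul h4⟩
  exact h3 hf

theorem quadratic_parts {p : ℕ → MvPolynomial (V n e) K} {k : ℕ} (h : Quadratic p k)
    {σ : Fin e → Equiv.Perm (Fin n)} {A : Finset (Fin n)} (hA : Occ p k σ A) :
    ∃ A1 A2, A1 ∪ A2 = A ∧ Part (Occ p) k σ A1 ∧ Part (Occ p) k σ A2 := by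
  obtain ⟨m1, m2, h1, ⟨f1, hf1, h2⟩, f2, hf2, h3⟩ := coeff_mul_ne h hA
  obtain ⟨A1, A2, h4, rfl, rfl⟩ := split2 h1
  exact ⟨A1, A2, h4, part_of_earlier hf1 h2, part_of_earlier hf2 h3⟩

theorem mwt_mon (S : Fin n → Kˣ) (T : Fin e → Fin n → Kˣ) (σ : Fin e → Equiv.Perm (Fin n)) (A : Finset (Fin n)) :
    mwt (cof S T) (mon σ A) = wts S T σ A := by
  classical
  have h1 : ∀ x : V n e, mwt (cof S T) (Finsupp.single x 1) = cof S T x := by
    intro x
    unfold mwt
    rw [Finsupp.prod_single_index (h := fun x k => cof S T x ^ k) (pow_zero _), pow_one]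
  rw [mwt, mon, ← Finsupp.prod_finsetSum_index (h := fun x k => cof S T x ^ k)
    (fun x => pow_zero _) (fun x a b => pow_add _ _ _)]
  exact Finset.prod_congr rfl fun i _ => h1 (i, fun s => σ s i)

theorem coeff_scale_cof (S : Fin n → Kˣ) (T : Fin e → Fin n → Kˣ) (f : MvPolynomial (V n e) K) (m : V n e →₀ ℕ) :
    MvPolynomial.coeff m (scale (fun x => (cof S T x : K)) f) =
      ((mwt (cof S T) m : Kˣ) : K) * MvPolynomial.coeff m f := by
  rw [mwt_val]
  exact Pool.Agent.Helper1x.EQ.coeff_scale _ f m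

/-- terms of a product of entries -/
theorem leibA {ι : Type*} [Fintype ι] [DecidableEq ι] {σ : Fin e → Equiv.Perm (Fin n)} {A : Finset (Fin n)}
    (hA : A.Nonempty) {F : ι → MvPolynomial (V n e) K} (h : MvPolynomial.coeff (mon σ A) (∏ v, F v) ≠ 0) :
    ∃ g : Fin n → ι, ∀ v, MvPolynomial.coeff (mon σ (A.filter fun i => g i = v)) (F v) ≠ 0 := by
  obtain ⟨d, hd1, hd2⟩ := coeff_prod_ne univ _ _ h
  obtain ⟨g, hg⟩ := split σ A hA d hd1
  exact ⟨g, fun v => hg v ▸ hd2 v (mem_univ v)⟩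

theorem det_term {ι : Type*} [Fintype ι] [DecidableEq ι] {X : Type*} {N : Matrix ι ι (MvPolynomial X K)} {m : X →₀ ℕ}
    (h : MvPolynomial.coeff m N.det ≠ 0) : ∃ ψ : Equiv.Perm ι, MvPolynomial.coeff m (∏ v, N (ψ v) v) ≠ 0 := by
  classical
  rw [Matrix.det_apply, MvPolynomial.coeff_sum] at h
  obtain ⟨ψ, _, hψ⟩ := Finset.exists_ne_zero_of_sum_ne_zero h
  refine ⟨ψ, fun h0 => hψ ?_⟩
  rcases Int.units_eq_one_or (Equiv.Perm.sign ψ) with h2 | h2
  · rw [h2, one_smul, h0]
  · rw [h2, Units.neg_smul, one_smul, MvPolynomial.coeff_neg, h0, neg_zero]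

end earlier

section gates

variable {n e : ℕ}

/-- what the descent needs about a gate -/
def Str {H : Type*} [CommGroup H] (S : Fin n → H) (T : Fin e → Fin n → H)
    (Q : ℕ → (Fin e → Equiv.Perm (Fin n)) → Finset (Fin n) → Prop) (k : ℕ) {m : ℕ} (b μ : Fin m → H) : Prop :=
  (∀ z z', b z ≠ μ z → b z' ≠ μ z' → b z' ≠ μ z) ∧ ∀ σ A, Q k σ A →
    (∃ A1 A2, A1 ∪ A2 = A ∧ Part Q k σ A1 ∧ Part Q k σ A2) ∨
    (∃ (ψ : Equiv.Perm (Fin m)) (g : Fin n → Fin m),
      (∀ v, b (ψ v) * wts S T σ (A.filter fun i => g i = v) = μ v) ∧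
      ∀ v, Part Q k σ (A.filter fun i => g i = v))

theorem wts_map {H H' : Type*} [CommGroup H] [CommGroup H'] (φ : H →* H') (S : Fin n → H) (T : Fin e → Fin n → H)
    (σ : Fin e → Equiv.Perm (Fin n)) (A : Finset (Fin n)) :
    wts (fun i => φ (S i)) (fun s j => φ (T s j)) σ A = φ (wts S T σ A) := by
  unfold wts
  rw [map_prod]
  refine Finset.prod_congr rfl fun i _ => ?_
  rw [map_mul, map_prod]

theorem Generic.map {H H' : Type*} [CommGroup H] [CommGroup H'] {S : Fin n → H} {T : Fin e → Fin n → H}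
    (h : Generic S T) (φ : H →* H') (hφ : Function.Injective φ) :
    Generic (fun i => φ (S i)) (fun s j => φ (T s j)) := by
  intro A A' B B' h1 h2 h3 h4 h5
  refine h A A' B B' h1 h2 h3 h4 (hφ ?_)
  simp only [map_mul, map_prod]
  exact h5

theorem part_small {Q : ℕ → (Fin e → Equiv.Perm (Fin n)) → Finset (Fin n) → Prop} {k : ℕ}
    {σ : Fin e → Equiv.Perm (Fin n)} : ∃ A1 A2 : Finset (Fin n), A1 ∪ A2 = ∅ ∧ Part Q k σ A1 ∧ Part Q k σ A2 := by
  refine ⟨∅, ∅, Finset.union_empty _, Or.inl ?_, Or.inl ?_⟩ <;> rw [Finset.card_empty] <;> exact Nat.zero_le _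

variable {K : Type*} [Field K] {L : Type*} [Field L] [Algebra K L]

/-- the map between the groups of units -/
def ju (K L : Type*) [Field K] [Field L] [Algebra K L] : Kˣ →* Lˣ := Units.map (algebraMap K L : K →* L)

theorem ju_injective : Function.Injective (ju K L) := Units.map_injective (algebraMap K L).injective

theorem cof_map (S : Fin n → Kˣ) (T : Fin e → Fin n → Kˣ) (x : V n e) :
    ((cof (fun i => ju K L (S i)) (fun s j => ju K L (T s j)) x : Lˣ) : L) = algebraMap K L (cof S T x : K) := by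
  have h1 : cof (fun i => ju K L (S i)) (fun s j => ju K L (T s j)) x = ju K L (cof S T x) := by
    unfold cof
    rw [map_mul, map_prod]
  rw [h1]
  rfl

theorem det_str [IsAlgClosed L] {S : Fin n → Kˣ} {T : Fin e → Fin n → Kˣ} {p : ℕ → MvPolynomial (V n e) K} {k m : ℕ}
    (h : DetGate (fun x => (cof S T x : K)) p k m) : ∃ b μ : Fin m → Lˣ,
      Str (fun i => ju K L (S i)) (fun s j => ju K L (T s j)) (Occ p) k b μ := by
  classical
  obtain ⟨M, B, C, hM, hB, hC, hBC, hp⟩ := h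
  set φ := algebraMap K L with hφ
  set ML : Matrix (Fin m) (Fin m) (MvPolynomial (V n e) L) := M.map (MvPolynomial.map φ) with hML
  have hdet : ∀ R : Matrix (Fin m) (Fin m) K, IsUnit R.det → IsUnit (R.map φ).det := by
    intro R hR
    rw [← RingHom.mapMatrix_apply, ← RingHom.map_det]
    exact hR.map φ
  have hmapC : ∀ R : Matrix (Fin m) (Fin m) K, (R.map MvPolynomial.C).map (MvPolynomial.map φ) =
      ((R.map φ).map MvPolynomial.C : Matrix (Fin m) (Fin m) (MvPolynomial (V n e) L)) := by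
    intro R
    ext1 i j
    simp only [Matrix.map_apply]
    exact MvPolynomial.map_C φ _
  have hBC' : ML.map (Pool.Agent.Helper1x.EQ.scale fun x => ((cof (fun i => ju K L (S i)) (fun s j => ju K L (T s j)) x :
      Lˣ) : L)) = (B.map φ).map MvPolynomial.C * ML * (C.map φ).map MvPolynomial.C := by
    have h1 : ML.map (Pool.Agent.Helper1x.EQ.scale fun x => ((cof (fun i => ju K L (S i))
        (fun s j => ju K L (T s j)) x : Lˣ) : L)) = (M.map (scale fun x => (cof S T x : K))).map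
        (MvPolynomial.map φ) := by
      ext1 i j
      simp only [hML, Matrix.map_apply]
      rw [show (fun x => ((cof (fun i => ju K L (S i)) (fun s j => ju K L (T s j)) x : Lˣ) : L)) =
        fun x => φ (cof S T x : K) from funext fun x => cof_map S T x]
      exact scale_map φ _ _
    rw [h1, hBC, Matrix.map_mul, Matrix.map_mul, hmapC, hmapC]
  obtain ⟨P, Q, ν, μ, hP, hQ, hPQ⟩ := graded_form (hdet B hB) (hdet C hC) hBC'
  obtain ⟨β, hβ⟩ := exists_beta ν μ
  refine ⟨fun u => ν (β u), μ, fun z z' => hβ z z', fun σ A hA => ?_⟩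
  rcases A.eq_empty_or_nonempty with rfl | hne
  · exact Or.inl part_small
  right
  set N1 : Matrix (Fin m) (Fin m) (MvPolynomial (V n e) L) := P.map MvPolynomial.C * ML * Q.map MvPolynomial.C with hN1
  have hε : ((Equiv.Perm.sign β : ℤ) : L) ≠ 0 := by
    rcases Int.units_eq_one_or (Equiv.Perm.sign β) with h | h <;> rw [h] <;> simp
  have hN : MvPolynomial.coeff (mon σ A) (N1.submatrix β id).det ≠ 0 := by
    rw [Matrix.det_permute, hN1, Pool.Agent.Helper1x.EP.det_conj, hML, Pool.Agent.Helper1x.EP.det_map, ← hp]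
    have h1 : ((Equiv.Perm.sign β : ℤ) : MvPolynomial (V n e) L) * (MvPolynomial.C P.det * MvPolynomial.map φ (p k) *
        MvPolynomial.C Q.det) = MvPolynomial.C (((Equiv.Perm.sign β : ℤ) : L) * P.det * Q.det) *
        MvPolynomial.map φ (p k) := by
      rw [map_mul, map_mul, map_intCast]
      ring
    rw [h1, MvPolynomial.coeff_C_mul, MvPolynomial.coeff_map]
    refine mul_ne_zero (mul_ne_zero (mul_ne_zero hε hP.ne_zero) hQ.ne_zero) ?_
    rw [Ne, map_eq_zero]
    exact hA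
  obtain ⟨ψ, hψ⟩ := det_term hN
  obtain ⟨g, hg⟩ := leibA hne hψ
  refine ⟨ψ, g, fun v => ?_, fun v => ?_⟩
  · rw [← mwt_mon]
    exact hPQ _ _ _ (hg v)
  · have h1 := hg v
    rw [Matrix.submatrix_apply, hN1, coeff_conj, Matrix.mul_apply] at h1
    obtain ⟨j, _, hj⟩ := Finset.exists_ne_zero_of_sum_ne_zero h1
    have h2 := left_ne_zero_of_mul hj
    rw [Matrix.mul_apply] at h2
    obtain ⟨i, _, hi⟩ := Finset.exists_ne_zero_of_sum_ne_zero h2
    have h3 := right_ne_zero_of_mul hi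
    rw [hML, Matrix.map_apply, Matrix.map_apply, MvPolynomial.coeff_map] at h3
    exact part_of_earlier (hM i j) fun h0 => h3 (by rw [h0, map_zero])

theorem matfun_str {S : Fin n → Kˣ} {T : Fin e → Fin n → Kˣ} {p : ℕ → MvPolynomial (V n e) K} {k m : ℕ}
    (h : MatrixFunctionGate (fun x => (cof S T x : K)) p k m) : ∃ b μ : Fin m → Lˣ,
      Str (fun i => ju K L (S i)) (fun s j => ju K L (T s j)) (Occ p) k b μ := by
  classical
  obtain ⟨M, b, μ, χ, hM, hgr, hp⟩ := h
  obtain ⟨β, hβ⟩ := exists_beta (fun u => (ju K L (b u))⁻¹) (fun v => ju K L (μ v))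
  refine ⟨fun u => (ju K L (b (β u)))⁻¹, fun v => ju K L (μ v), fun z z' => hβ z z', fun σ A hA => ?_⟩
  rcases A.eq_empty_or_nonempty with rfl | hne
  · exact Or.inl part_small
  right
  have h1 : MvPolynomial.coeff (mon σ A) (p k) ≠ 0 := hA
  rw [hp, MvPolynomial.coeff_sum] at h1
  obtain ⟨π, _, hπ⟩ := Finset.exists_ne_zero_of_sum_ne_zero h1
  rw [MvPolynomial.coeff_C_mul] at hπ
  obtain ⟨g, hg⟩ := leibA hne (right_ne_zero_of_mul hπ)
  refine ⟨β⁻¹ * π, g, fun v => ?_, fun v => part_of_earlier (hM _ _) (hg v)⟩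
  have h2 : wts S T σ (A.filter fun i => g i = v) = b (π v) * μ v := by
    rw [← mwt_mon]
    have h3 := congrArg (MvPolynomial.coeff (mon σ (A.filter fun i => g i = v))) (hgr (π v) v)
    rw [coeff_scale_cof, MvPolynomial.coeff_C_mul] at h3
    exact Units.ext (mul_right_cancel₀ (hg v) h3)
  have h3 : β ((β⁻¹ * π) v) = π v := by
    rw [← Equiv.Perm.mul_apply, ← mul_assoc, mul_inv_cancel, one_mul]
  simp only [h3]
  rw [wts_map, h2, map_mul, inv_mul_cancel_left]

theorem circuit_str [IsAlgClosed L] {S : Fin n → Kˣ} {T : Fin e → Fin n → Kˣ} {G : ℕ}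
    {p : ℕ → MvPolynomial (V n e) K} {m : ℕ → ℕ} (hc : Circuit (fun x => (cof S T x : K)) G p m) (k : ℕ) :
    ∃ (l : Lˣ) (b μ : Fin (m k) → Lˣ), k < G →
      (∀ σ A, Occ p k σ A → wts (fun i => ju K L (S i)) (fun s j => ju K L (T s j)) σ A = l) ∧
      Str (fun i => ju K L (S i)) (fun s j => ju K L (T s j)) (Occ p) k b μ := by
  classical
  by_cases hk : k < G
  · obtain ⟨⟨a, ha⟩, hgate⟩ := hc k hk
    have hlab : ∃ l : Lˣ, ∀ σ A, Occ p k σ A →
        wts (fun i => ju K L (S i)) (fun s j => ju K L (T s j)) σ A = l := by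
      by_cases hex : ∃ σ A, Occ p k σ A
      · obtain ⟨σ0, A0, h0⟩ := hex
        have hval : ∀ σ A, Occ p k σ A → ((wts S T σ A : Kˣ) : K) = a := by
          intro σ A hA
          have h3 := congrArg (MvPolynomial.coeff (mon σ A)) ha
          rw [coeff_scale_cof, MvPolynomial.coeff_C_mul, mwt_mon] at h3
          exact mul_right_cancel₀ hA h3
        refine ⟨ju K L (wts S T σ0 A0), fun σ A hA => ?_⟩
        rw [wts_map, Units.ext ((hval σ A hA).trans (hval σ0 A0 h0).symm)]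
      · exact ⟨1, fun σ A hA => absurd ⟨σ, A, hA⟩ hex⟩
    obtain ⟨l, hl⟩ := hlab
    have hstr : ∃ b μ : Fin (m k) → Lˣ, Str (fun i => ju K L (S i)) (fun s j => ju K L (T s j)) (Occ p) k b μ := by
      rcases hgate with h | h | h
      · exact ⟨fun _ => 1, fun _ => 1, fun z z' h1 => absurd rfl h1, fun σ A hA => Or.inl (quadratic_parts h hA)⟩
      · exact det_str h
      · exact matfun_str h
    obtain ⟨b, μ, h⟩ := hstr
    exact ⟨l, b, μ, fun _ => ⟨hl, h⟩⟩
  · exact ⟨1, fun _ => 1, fun _ => 1, fun h => absurd h hk⟩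

end gates

end Pool.Agent.Helper1x.EC
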