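import Pool.Agent.Helper1x.EC.Def

/-!
# Counting permutations with prescribed images (project EC)
-/

set_option autoImplicit false

namespace Pool.Agent.Helper1x.EC

open Finset

namespace Cnt2P

theorem fact_mul_le {a b : ℕ} (ha : 1 ≤ a) (hb : 1 ≤ b) : a.factorial * b.factorial ≤ (a + b - 1).factorial := by
  obtain ⟨b, rfl⟩ : ∃ c, b = c + 1 := ⟨b - 1, by omega⟩
  clear hb
  induction b with
  | zero => simp
  | succ b ih =>
    have e1 : a + (b + 1 + 1) - 1 = (a + (b + 1) - 1) + 1 := by omega
    rw [e1, Nat.factorial_succ (b + 1), Nat.factorial_succ (a + (b + 1) - 1)]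
    calc a.factorial * ((b + 1 + 1) * (b + 1).factorial)
        = (b + 1 + 1) * (a.factorial * (b + 1).factorial) := by ring
      _ ≤ (a + (b + 1) - 1 + 1) * (a + (b + 1) - 1).factorial :=
        Nat.mul_le_mul (by omega) ih

/-- the inequality for the factorials -/
theorem prod_fact_le {ι : Type} [DecidableEq ι] (k : ι → ℕ) (k0 : ℕ) (Z : Finset ι) (hZ : Z.Nonempty) :
    (∀ z ∈ Z, 1 ≤ k z) → k0.factorial * ∏ z ∈ Z, (k z).factorial ≤ (k0 + ∑ z ∈ Z, k z - Z.card + 1).factorial := by
  induction hZ using Finset.Nonempty.cons_induction with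
  | singleton z =>
    intro h
    have h1 := h z (mem_singleton_self z)
    rw [prod_singleton, sum_singleton, card_singleton]
    have e1 : k0 + k z - 1 + 1 = k0 + k z := by omega
    rw [e1]
    exact Nat.le_of_dvd (Nat.factorial_pos _) (Nat.factorial_mul_factorial_dvd_factorial_add k0 (k z))
  | cons z Z hz hZ ih =>
    intro h
    have h1 : 1 ≤ k z := h z (mem_cons_self z Z)
    have h2 : ∀ y ∈ Z, 1 ≤ k y := fun y hy => h y (mem_cons_of_mem hy)
    have h3 : Z.card ≤ ∑ y ∈ Z, k y := by
      calc Z.card = ∑ y ∈ Z, 1 := by simp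
        _ ≤ _ := sum_le_sum h2
    rw [prod_cons, sum_cons, card_cons]
    calc k0.factorial * ((k z).factorial * ∏ y ∈ Z, (k y).factorial)
        = (k0.factorial * ∏ y ∈ Z, (k y).factorial) * (k z).factorial := by ring
      _ ≤ (k0 + ∑ y ∈ Z, k y - Z.card + 1).factorial * (k z).factorial :=
        Nat.mul_le_mul_right _ (ih h2)
      _ ≤ (k0 + ∑ y ∈ Z, k y - Z.card + 1 + k z - 1).factorial := fact_mul_le (by omega) h1
      _ = _ := by
        congr 1
        omega

end Cnt2P

open Cnt2P in
theorem t_CNT2 : S_CNT2 := by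
  classical
  intro n ι _ Z A B hZ hA hdisj
  -- the labels
  let f : Fin n → Option {z // z ∈ Z} := fun x =>
    if h : ∃ z : {z // z ∈ Z}, x ∈ A z.1 then some h.choose else none
  have hf : ∀ x (z : {z // z ∈ Z}), f x = some z ↔ x ∈ A z.1 := by
    intro x z
    by_cases h : ∃ z : {z // z ∈ Z}, x ∈ A z.1
    · have e : f x = some h.choose := dif_pos h
      have hs := h.choose_spec
      rw [e, Option.some_inj]
      constructor
      · intro h1
        rw [← h1]
        exact hs
      · intro h1
        by_contra hne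
        have hne' : h.choose.1 ≠ z.1 := fun h2 => hne (Subtype.ext h2)
        exact Finset.disjoint_left.1 (hdisj _ h.choose.2 _ z.2 hne') hs h1
    · have e : f x = none := dif_neg h
      rw [e]
      constructor
      · intro h1
        exact absurd h1 (by simp)
      · intro h1
        exact absurd ⟨z, h1⟩ h
  -- the stabilizer
  have hcard : Fintype.card {g : Equiv.Perm (Fin n) // f ∘ g = f} ≤ (n - Z.card + 1).factorial := by
    rw [DomMulAct.stabilizer_card]
    rw [Fintype.prod_option]
    have h1 := prod_fact_le (fun z : {z // z ∈ Z} => Fintype.card {a // f a = some z})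
      (Fintype.card {a // f a = none}) univ (by
        obtain ⟨z, hz⟩ := hZ
        exact ⟨⟨z, hz⟩, mem_univ _⟩) (by
        intro z _
        obtain ⟨x, hx⟩ := hA z.1 z.2
        exact Fintype.card_pos_iff.2 ⟨⟨x, (hf x z).2 hx⟩⟩)
    refine h1.trans (le_of_eq ?_)
    congr 2
    have h2 : n = Fintype.card {a // f a = none} + ∑ z : {z // z ∈ Z}, Fintype.card {a // f a = some z} := by
      have h3 : Fintype.card (Fin n) = ∑ y : Option {z // z ∈ Z}, Fintype.card {a // f a = y} := by
        rw [← Fintype.card_sigma]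
        exact (Fintype.card_congr (Equiv.sigmaFiberEquiv f)).symm
      rw [Fintype.sum_option, Fintype.card_fin] at h3
      exact h3
    have h4 : (univ : Finset {z // z ∈ Z}).card = Z.card := by
      rw [card_univ, Fintype.card_coe]
    rw [h4]
    omega
  refine le_trans ?_ hcard
  rcases (univ.filter fun τ : Equiv.Perm (Fin n) => ∀ z ∈ Z, (A z).image τ = B z).eq_empty_or_nonempty with h0 | h0
  · rw [h0]
    exact Nat.zero_le _
  obtain ⟨τ0, hτ0⟩ := h0
  rw [mem_filter] at hτ0
  have hτ0' := hτ0.2
  rw [← Fintype.card_coe]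
  refine Fintype.card_le_of_injective
    (fun τ => (⟨τ0⁻¹ * τ.1, ?_⟩ : {g : Equiv.Perm (Fin n) // f ∘ g = f})) ?_
  · have hτ := (mem_filter.1 τ.2).2
    have key : ∀ x (z : {z // z ∈ Z}), (τ0⁻¹ * τ.1) x ∈ A z.1 ↔ x ∈ A z.1 := by
      intro x z
      have h1 : (A z.1).image τ0 = (A z.1).image τ.1 := by
        rw [hτ0' z.1 z.2, hτ z.1 z.2]
      constructor
      · intro h
        have h2 : τ.1 x ∈ (A z.1).image τ0 := by
          refine mem_image.2 ⟨_, h, ?_⟩
          simp
        rw [h1] at h2
        obtain ⟨y, hy, hxy⟩ := mem_image.1 h2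
        rwa [← τ.1.injective hxy]
      · intro h
        have h2 : τ.1 x ∈ (A z.1).image τ.1 := mem_image_of_mem _ h
        rw [← h1] at h2
        obtain ⟨y, hy, hxy⟩ := mem_image.1 h2
        have h3 : (τ0⁻¹ * τ.1) x = y := by
          change τ0.symm (τ.1 x) = y
          rw [← hxy]
          exact τ0.symm_apply_apply y
        exact h3.symm ▸ hy
    funext x
    change f ((τ0⁻¹ * τ.1) x) = f x
    rcases hx : f x with _ | z
    · rcases hy : f ((τ0⁻¹ * τ.1) x) with _ | z
      · rfl
      · exfalso
        have h1 := (key x z).1 ((hf _ z).1 hy)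
        rw [(hf x z).2 h1] at hx
        exact absurd hx (by simp)
    · exact (hf _ z).2 ((key x z).2 ((hf x z).1 hx))
  · intro τ τ' h
    have h1 := congrArg Subtype.val h
    exact Subtype.ext (mul_left_cancel h1)

end Pool.Agent.Helper1x.EC
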