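import Pool.Agent.Helper1x.EP.Walk

/-!
# Cuts of the walks of a matrix gate
-/

set_option autoImplicit false

namespace Pool.Agent.Helper1x.EC

open Finset Pool.Agent.Helper1x.EP

section

variable {ι H : Type*} [Fintype ι] [DecidableEq ι] [CommGroup H] {b μ w : ι → H} {Z : Finset ι} {ψ : Equiv.Perm ι}
  {n : ℕ} {g : Fin n → ι} {u : Fin n → H} {A : Finset (Fin n)}

omit [Fintype ι] in
theorem prod_wA (hw : ∀ v, w v = ∏ i ∈ A.filter (fun i => g i = v), u i)
    (S : Finset ι) : ∏ v ∈ S, w v = ∏ i ∈ A.filter (fun i => g i ∈ S), u i := by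
  classical
  rw [← Finset.prod_fiberwise_of_maps_to (s := A.filter fun i => g i ∈ S) (t := S) (g := g)
    (fun i hi => (mem_filter.1 hi).2)]
  refine Finset.prod_congr rfl fun v hv => ?_
  rw [hw v]
  refine Finset.prod_congr ?_ fun _ _ => rfl
  ext i
  simp only [mem_filter]
  constructor
  · intro h
    exact ⟨⟨h.1, h.2 ▸ hv⟩, h.2⟩
  · exact fun h => ⟨h.1.1, h.2⟩

omit [Fintype ι] in
theorem prod_trailA {T : ι → ℕ} (hT : ∀ z ∈ Z, ∀ s, 0 < s → s < T z → (ψ ^ s) z ∉ Z) {z : ι} (hz : z ∈ Z) {t : ℕ}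
    (ht : t ≤ T z) (hw : ∀ v, w v = ∏ i ∈ A.filter (fun i => g i = v), u i) :
    ∏ s ∈ range t, w ((ψ ^ s) z) = ∏ i ∈ A.filter (fun i => g i ∈ trail ψ z t), u i := by
  rw [← prod_wA hw, trail, Finset.prod_image]
  intro s hs s' hs' h
  rw [Finset.coe_range, Set.mem_Iio] at hs hs'
  exact (seg_inj hT hz hz (lt_of_lt_of_le hs ht) (lt_of_lt_of_le hs' ht) h).2

omit [Fintype ι] in
/-- A closed set of columns which avoids `Z` contains no variable or all of them. -/
theorem closedA (h1 : ∀ v, b (ψ v) * w v = μ v)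
    (h2 : ∀ v, v ∉ Z → b v = μ v) (hw : ∀ v, w v = ∏ i ∈ A.filter (fun i => g i = v), u i)
    (hgen : ∀ A' : Finset (Fin n), A' ⊆ A → ∏ i ∈ A', u i = 1 → A' = ∅ ∨ A' = univ)
    {C : Finset ι} (hC : C.image ψ = C) (hCZ : Disjoint C Z) :
    (∀ i ∈ A, g i ∉ C) ∨ ((∀ i, i ∈ A) ∧ ∀ i, g i ∈ C) := by
  classical
  have h3 : ∏ v ∈ C, b (ψ v) = ∏ v ∈ C, b v := by
    rw [← Finset.prod_image (f := b) (g := ψ) (fun x _ y _ h => ψ.injective h), hC]
  have h4 : ∏ v ∈ C, μ v = (∏ v ∈ C, μ v) * ∏ v ∈ C, w v := by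
    conv_lhs => rw [Finset.prod_congr rfl fun v _ => (h1 v).symm, Finset.prod_mul_distrib, h3]
    rw [Finset.prod_congr rfl fun v hv => h2 v (Finset.disjoint_left.1 hCZ hv)]
  have h5 : ∏ v ∈ C, w v = 1 := by
    have := mul_left_cancel (h4.symm.trans (mul_one _).symm)
    exact this
  rw [prod_wA hw] at h5
  rcases hgen _ (Finset.filter_subset _ _) h5 with h6 | h6
  · left
    intro i hiA hi
    have : i ∈ A.filter fun i => g i ∈ C := mem_filter.2 ⟨hiA, hi⟩
    rw [h6] at this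
    exact absurd this (Finset.notMem_empty _)
  · right
    have h7 : ∀ i, i ∈ A.filter fun i => g i ∈ C := by
      intro i
      rw [h6]
      exact mem_univ _
    exact ⟨fun i => (mem_filter.1 (h7 i)).1, fun i => (mem_filter.1 (h7 i)).2⟩

omit [Fintype ι] in
/-- The first time at which a walk has seen at least `a` variables. -/
theorem first_time {a : ℕ} (ha : 0 < a) (hstep : ∀ v, (A.filter fun i => g i = v).card < a) {y : ι} {T : ℕ}
    (hT : a ≤ (A.filter fun i => g i ∈ trail ψ y T).card) :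
    ∃ t, 0 < t ∧ t ≤ T ∧ a ≤ (A.filter fun i => g i ∈ trail ψ y t).card ∧
      (A.filter fun i => g i ∈ trail ψ y t).card < 2 * a := by
  classical
  set cnt : ℕ → ℕ := fun t => (A.filter fun i => g i ∈ trail ψ y t).card with hcnt
  have hc0 : cnt 0 = 0 := by
    rw [hcnt]
    simp [trail]
  have hst : ∀ t, cnt (t + 1) < cnt t + a := by
    intro t
    have h3 : (A.filter fun i => g i ∈ trail ψ y (t + 1)) ⊆
        (A.filter fun i => g i ∈ trail ψ y t) ∪ A.filter fun i => g i = (ψ ^ t) y := by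
      intro i hi
      rw [mem_filter] at hi
      rw [mem_union, mem_filter, mem_filter]
      obtain ⟨s, hs, h4⟩ := mem_image.1 hi.2
      rw [mem_range] at hs
      rcases Nat.lt_or_ge s t with h5 | h5
      · exact Or.inl ⟨hi.1, mem_image.2 ⟨s, mem_range.2 h5, h4⟩⟩
      · have h6 : s = t := by omega
        subst h6
        exact Or.inr ⟨hi.1, h4.symm⟩
    exact lt_of_le_of_lt ((Finset.card_le_card h3).trans (Finset.card_union_le _ _)) (Nat.add_lt_add_left (hstep _) _)
  have hex : ∃ t, a ≤ cnt t := ⟨T, hT⟩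
  obtain ⟨t, ht⟩ : ∃ t, Nat.find hex = t + 1 := by
    refine Nat.exists_eq_succ_of_ne_zero fun h0 => ?_
    have h3 := Nat.find_spec hex
    rw [h0, hc0] at h3
    omega
  have ht1 : a ≤ cnt (t + 1) := ht ▸ Nat.find_spec hex
  have ht2 : t + 1 ≤ T := ht ▸ Nat.find_min' hex hT
  have ht3 : cnt t < a := by
    have h3 : ¬ a ≤ cnt t := Nat.find_min hex (by omega)
    omega
  have ht4 := hst t
  have ht5 : cnt (t + 1) < 2 * a := by omega
  exact ⟨t + 1, Nat.succ_pos _, ht2, ht1, ht5⟩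

/-- The cuts of the walks of a matrix gate. -/
theorem cut {a : ℕ} (ha : 0 < a) (hA : a ≤ A.card) (hβ : ∀ z ∈ Z, ∀ z' ∈ Z, b z' ≠ μ z) (h1 : ∀ v, b (ψ v) * w v = μ v)
    (h2 : ∀ v, v ∉ Z → b v = μ v) (hw : ∀ v, w v = ∏ i ∈ A.filter (fun i => g i = v), u i)
    (hgen : ∀ A' : Finset (Fin n), A' ⊆ A → ∏ i ∈ A', u i = 1 → A' = ∅ ∨ A' = univ)
    (hstep : ∀ v, (A.filter fun i => g i = v).card < a) :
    (∃ (y v : ι) (A' : Finset (Fin n)), A' ⊆ A ∧ a ≤ A'.card ∧ A'.card < 2 * a ∧ μ y = b v * ∏ i ∈ A', u i) ∨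
    (∃ (r : ι → ι) (D : ι → Finset (Fin n)), (∀ z ∈ Z, r z ∈ Z) ∧ (∀ z ∈ Z, ∀ z' ∈ Z, r z = r z' → z = z') ∧
      (∀ z ∈ Z, (D z).Nonempty) ∧ (∀ z ∈ Z, μ z = b (r z) * ∏ i ∈ D z, u i) ∧
      (∀ z ∈ Z, ∀ z' ∈ Z, z ≠ z' → Disjoint (D z) (D z')) ∧ (∀ z ∈ Z, D z ⊆ A) ∧ (∀ z ∈ Z, (D z).card < a) ∧
      A ⊆ Z.biUnion D) := by
  classical
  rcases Z.eq_empty_or_nonempty with hZ | hZ
  · -- one closed walk
    left
    obtain ⟨i0, hi0⟩ := Finset.card_pos.1 (lt_of_lt_of_le ha hA)
    obtain ⟨T, hpos, hmem, hT⟩ := exists_rets ψ ({g i0} : Finset ι)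
    have hz0 : g i0 ∈ ({g i0} : Finset ι) := Finset.mem_singleton_self _
    have hTp := hpos _ hz0
    have hret : (ψ ^ T (g i0)) (g i0) = g i0 := Finset.mem_singleton.1 (hmem _ hz0)
    have hOeq := trail_image hTp hret
    have hz0O : g i0 ∈ trail ψ (g i0) (T (g i0)) := mem_image.2 ⟨0, mem_range.2 hTp, by simp⟩
    have hall : ∀ i ∈ A, g i ∈ trail ψ (g i0) (T (g i0)) := by
      rcases closedA (Z := Z) h1 h2 hw hgen hOeq (by rw [hZ]; exact Finset.disjoint_empty_right _) with h3 | h3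
      · exact absurd hz0O (h3 i0 hi0)
      · exact fun i _ => h3.2 i
    obtain ⟨t, ht1, ht2, ht3, ht4⟩ := first_time (ψ := ψ) (y := g i0) (T := T (g i0)) ha hstep (by
      rw [Finset.filter_true_of_mem hall]
      exact hA)
    refine ⟨g i0, (ψ ^ t) (g i0), A.filter fun i => g i ∈ trail ψ (g i0) t, Finset.filter_subset _ _, ht3, ht4, ?_⟩
    rw [← prod_trailA hT hz0 ht2 hw]
    refine walk (Z := ∅) h1 (fun v _ => h2 v (by rw [hZ]; exact Finset.notMem_empty _)) (T := T (g i0)) ?_ t ht1 ht2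
    intro s _ _
    exact Finset.notMem_empty _
  · obtain ⟨T, hpos, hmem, hT⟩ := exists_rets ψ Z
    by_cases hlong : ∃ z ∈ Z, a ≤ (A.filter fun i => g i ∈ trail ψ z (T z)).card
    · left
      obtain ⟨z, hz, hlong⟩ := hlong
      obtain ⟨t, ht1, ht2, ht3, ht4⟩ := first_time (ψ := ψ) (y := z) (T := T z) ha hstep hlong
      refine ⟨z, (ψ ^ t) z, A.filter fun i => g i ∈ trail ψ z t, Finset.filter_subset _ _, ht3, ht4, ?_⟩
      rw [← prod_trailA hT hz ht2 hw]
      exact walk h1 h2 (hT z hz) t ht1 ht2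
    · right
      push Not at hlong
      have heq : ∀ z ∈ Z, μ z = b ((ψ ^ T z) z) * ∏ i ∈ A.filter (fun i => g i ∈ trail ψ z (T z)), u i := by
        intro z hz
        rw [← prod_trailA hT hz le_rfl hw]
        exact walk h1 h2 (hT z hz) (T z) (hpos z hz) le_rfl
      have hne : ∀ z ∈ Z, (A.filter fun i => g i ∈ trail ψ z (T z)).Nonempty := by
        intro z hz
        rw [Finset.nonempty_iff_ne_empty]
        intro h0
        have h3 := heq z hz
        rw [h0, Finset.prod_empty, mul_one] at h3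
        exact hβ z hz _ (hmem z hz) h3.symm
      refine ⟨fun z => (ψ ^ T z) z, fun z => A.filter fun i => g i ∈ trail ψ z (T z), hmem,
        fun z hz z' hz' h => ret_inj hpos hT hz hz' h, hne, heq, fun z hz z' hz' hzz => ?_,
        fun z _ => Finset.filter_subset _ _, hlong, ?_⟩
      · rw [Finset.disjoint_left]
        intro i hi hi'
        obtain ⟨s, hs, hs1⟩ := mem_image.1 (mem_filter.1 hi).2
        obtain ⟨s', hs', hs1'⟩ := mem_image.1 (mem_filter.1 hi').2
        exact hzz (seg_inj hT hz hz' (mem_range.1 hs) (mem_range.1 hs') (hs1.trans hs1'.symm)).1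
      · set U : Finset ι := Z.biUnion fun z => trail ψ z (T z) with hU
        have hUim : U.image ψ ⊆ U := by
          intro v hv
          obtain ⟨x, hx, rfl⟩ := mem_image.1 hv
          obtain ⟨z, hz, hx⟩ := mem_biUnion.1 hx
          obtain ⟨s, hs, rfl⟩ := mem_image.1 hx
          rw [mem_range] at hs
          rw [← Equiv.Perm.mul_apply, ← pow_succ']
          rcases Nat.lt_or_ge (s + 1) (T z) with h3 | h3
          · exact mem_biUnion.2 ⟨z, hz, mem_image.2 ⟨s + 1, mem_range.2 h3, rfl⟩⟩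
          · have h4 : s + 1 = T z := by omega
            rw [h4]
            exact mem_biUnion.2 ⟨_, hmem z hz, mem_image.2 ⟨0, mem_range.2 (hpos _ (hmem z hz)), by simp⟩⟩
        have hUeq : U.image ψ = U := by
          refine Finset.eq_of_subset_of_card_le hUim ?_
          rw [Finset.card_image_of_injective _ ψ.injective]
        have hCim : Uᶜ.image ψ = Uᶜ := by
          rw [Finset.compl_eq_univ_sdiff, Finset.image_sdiff _ _ ψ.injective, Finset.image_univ_equiv, hUeq]
        have hCZ : Disjoint Uᶜ Z := by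
          rw [Finset.disjoint_left]
          intro v hv hvZ
          rw [Finset.mem_compl] at hv
          exact hv (mem_biUnion.2 ⟨v, hvZ, mem_image.2 ⟨0, mem_range.2 (hpos v hvZ), by simp⟩⟩)
        rcases closedA h1 h2 hw hgen hCim hCZ with h3 | h3
        · intro i hi
          have h4 := h3 i hi
          rw [Finset.mem_compl, not_not] at h4
          obtain ⟨z, hz, h5⟩ := mem_biUnion.1 h4
          exact mem_biUnion.2 ⟨z, hz, mem_filter.2 ⟨hi, h5⟩⟩
        · exfalso
          obtain ⟨z, hz⟩ := hZ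
          obtain ⟨i, hi⟩ := hne z hz
          have h4 := h3.2 i
          rw [Finset.mem_compl] at h4
          exact h4 (mem_biUnion.2 ⟨z, hz, (mem_filter.1 hi).2⟩)

/-- a union of some of the walks with about `a` variables -/
theorem group_walks {κ : Type*} [DecidableEq κ] {a : ℕ} (ha : 0 < a) {D : κ → Finset (Fin n)} : ∀ (Z : Finset κ),
    (∀ z ∈ Z, ∀ z' ∈ Z, z ≠ z' → Disjoint (D z) (D z')) → (∀ z ∈ Z, (D z).card < a) →
    a ≤ (Z.biUnion D).card → ∃ I ⊆ Z, a ≤ (I.biUnion D).card ∧ (I.biUnion D).card < 2 * a := by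
  classical
  intro Z
  induction Z using Finset.induction_on with
  | empty =>
    intro _ _ h
    rw [Finset.biUnion_empty, Finset.card_empty] at h
    omega
  | insert z Z hz ih =>
    intro hdis hlt hcard
    by_cases h : a ≤ (Z.biUnion D).card
    · obtain ⟨I, hI, h1, h2⟩ := ih (fun z hz z' hz' => hdis z (mem_insert_of_mem hz) z' (mem_insert_of_mem hz'))
        (fun z hz => hlt z (mem_insert_of_mem hz)) h
      exact ⟨I, hI.trans (Finset.subset_insert _ _), h1, h2⟩
    · refine ⟨insert z Z, Finset.Subset.refl _, hcard, ?_⟩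
      rw [Finset.biUnion_insert]
      have h1 := Finset.card_union_le (D z) (Z.biUnion D)
      have h2 := hlt z (mem_insert_self _ _)
      omega

end

end Pool.Agent.Helper1x.EC
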