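import Pool.Agent.Helper1x.EC.Def
import Pool.Agent.Helper1x.EC.Cut
import Pool.Agent.Helper1x.EP.Count

/-!
# The descent and the count
-/

set_option autoImplicit false

namespace Pool.Agent.Helper1x.EC

open Finset Pool.Agent.Helper1x.EP

section

variable {n e : ℕ} {H : Type*} [CommGroup H]

/-- the weight of a part of a matching -/
def wts (S : Fin n → H) (T : Fin e → Fin n → H) (σ : Fin e → Equiv.Perm (Fin n)) (A : Finset (Fin n)) : H :=
  ∏ i ∈ A, (S i * ∏ s, T s (σ s i))

theorem wts_eq (S : Fin n → H) (T : Fin e → Fin n → H) (σ : Fin e → Equiv.Perm (Fin n)) (A : Finset (Fin n)) :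
    wts S T σ A = (∏ i ∈ A, S i) * (∏ s, ∏ j ∈ A.image (σ s), T s j) := by
  unfold wts
  rw [Finset.prod_mul_distrib, Finset.prod_comm]
  congr 1
  refine Finset.prod_congr rfl fun s _ => ?_
  rw [Finset.prod_image fun x _ y _ h => (σ s).injective h]

theorem Generic.eq_of {S : Fin n → H} {T : Fin e → Fin n → H} (hgen : Generic S T) {σ σ' : Fin e → Equiv.Perm (Fin n)}
    {A A' : Finset (Fin n)} (hA : A.card < n) (hA' : A'.card < n) (h : wts S T σ A = wts S T σ' A') :
    A = A' ∧ ∀ s, A.image (σ s) = A'.image (σ' s) := by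
  rw [wts_eq, wts_eq] at h
  obtain ⟨h1, h2⟩ := hgen A A' (fun s => A.image (σ s)) (fun s => A'.image (σ' s)) hA hA'
    (fun s => Finset.card_image_of_injective _ (σ s).injective)
    (fun s => Finset.card_image_of_injective _ (σ' s).injective) h
  exact ⟨h1, fun s => congrFun h2 s⟩

theorem Generic.empty {S : Fin n → H} {T : Fin e → Fin n → H} (hn : 0 < n) (hgen : Generic S T)
    {σ : Fin e → Equiv.Perm (Fin n)} {A : Finset (Fin n)} (h : wts S T σ A = 1) : A = ∅ ∨ A = univ := by
  rcases Nat.lt_or_ge A.card n with h1 | h1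
  · left
    exact (hgen.eq_of (σ := σ) (σ' := σ) (A' := ∅) h1 (by rw [Finset.card_empty]; exact hn) (by rw [h]; simp [wts])).1
  · right
    rw [← Finset.card_eq_iff_eq_univ, Fintype.card_fin]
    refine le_antisymm ?_ h1
    have := Finset.card_le_univ A
    rwa [Fintype.card_fin] at this

/-- a part of a matching which is an affine form or occurs in an earlier gate -/
def Part (Q : ℕ → (Fin e → Equiv.Perm (Fin n)) → Finset (Fin n) → Prop) (k : ℕ) (σ : Fin e → Equiv.Perm (Fin n))
    (A : Finset (Fin n)) : Prop := A.card ≤ 1 ∨ ∃ j < k, Q j σ A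

/-- the walks between the unmatched labels of a gate -/
def Walks {ι : Type} (S : Fin n → H) (T : Fin e → Fin n → H) (b μ : ι → H) (Z : Finset ι)
    (σ : Fin e → Equiv.Perm (Fin n)) : Prop :=
  ∃ (r : ι → ι) (D : ι → Finset (Fin n)), (∀ z ∈ Z, r z ∈ Z) ∧ (∀ z ∈ Z, ∀ z' ∈ Z, r z = r z' → z = z') ∧
    (∀ z ∈ Z, (D z).Nonempty) ∧ (∀ z ∈ Z, μ z = b (r z) * wts S T σ (D z)) ∧
    (∀ z ∈ Z, ∀ z' ∈ Z, z ≠ z' → Disjoint (D z) (D z'))

open Classical in
/-- the labels of the cuts -/
noncomputable def labels (G : ℕ) (m : ℕ → ℕ) (l : ℕ → H) (b μ : ∀ k, Fin (m k) → H) (Z : ∀ k, Finset (Fin (m k)))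
    (z0 : ℕ) : Finset H :=
  (range G).image l ∪
    ((range G).biUnion fun k => (univ : Finset (Fin (m k) × Fin (m k))).image fun y => (b k y.2)⁻¹ * μ k y.1) ∪
    (((range G).filter fun k => (Z k).card ≤ z0).biUnion fun k =>
      ((Z k).powerset ×ˢ (Z k).powerset).image fun y => (∏ v ∈ y.2, b k v)⁻¹ * ∏ v ∈ y.1, μ k v)

theorem card_labels (G : ℕ) (m : ℕ → ℕ) (l : ℕ → H) (b μ : ∀ k, Fin (m k) → H) (Z : ∀ k, Finset (Fin (m k)))
    (z0 : ℕ) : (labels G m l b μ Z z0).card ≤ G + ∑ k ∈ range G, m k * m k + G * 4 ^ z0 := by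
  classical
  unfold labels
  refine (Finset.card_union_le _ _).trans (Nat.add_le_add ((Finset.card_union_le _ _).trans (Nat.add_le_add ?_ ?_)) ?_)
  · refine Finset.card_image_le.trans ?_
    rw [card_range]
  · refine Finset.card_biUnion_le.trans (Finset.sum_le_sum fun k _ => Finset.card_image_le.trans ?_)
    rw [Finset.card_univ, Fintype.card_prod, Fintype.card_fin]
  · refine Finset.card_biUnion_le.trans ?_
    have h1 : ∀ k ∈ (range G).filter fun k => (Z k).card ≤ z0,
        (((Z k).powerset ×ˢ (Z k).powerset).image fun y => (∏ v ∈ y.2, b k v)⁻¹ * ∏ v ∈ y.1, μ k v).card ≤ 4 ^ z0 := by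
      intro k hk
      refine Finset.card_image_le.trans ?_
      rw [Finset.card_product, Finset.card_powerset, ← mul_pow]
      exact Nat.pow_le_pow_right (by norm_num) (mem_filter.1 hk).2
    refine (Finset.sum_le_card_nsmul _ _ _ h1).trans ?_
    rw [smul_eq_mul]
    refine Nat.mul_le_mul_right _ ((Finset.card_filter_le _ _).trans ?_)
    rw [card_range]

/-- The descent: a large part of a matching in a gate has a cut in the window, or many walks. -/
theorem descent {S : Fin n → H} {T : Fin e → Fin n → H} (hgen : Generic S T) {G : ℕ} {m : ℕ → ℕ} {l : ℕ → H}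
    {b μ : ∀ k, Fin (m k) → H} {Z : ∀ k, Finset (Fin (m k))} {z0 a : ℕ} (ha : 2 ≤ a) (han : 3 * a ≤ n)
    {Q : ℕ → (Fin e → Equiv.Perm (Fin n)) → Finset (Fin n) → Prop}
    (hlab : ∀ k < G, ∀ σ A, Q k σ A → wts S T σ A = l k)
    (hβ : ∀ k < G, ∀ z ∈ Z k, ∀ z' ∈ Z k, b k z' ≠ μ k z) (h2 : ∀ k < G, ∀ v, v ∉ Z k → b k v = μ k v)
    (hstep : ∀ k < G, ∀ σ A, Q k σ A →
      (∃ A1 A2, A1 ∪ A2 = A ∧ Part Q k σ A1 ∧ Part Q k σ A2) ∨
      (∃ (ψ : Equiv.Perm (Fin (m k))) (g : Fin n → Fin (m k)),
        (∀ v, b k (ψ v) * wts S T σ (A.filter fun i => g i = v) = μ k v) ∧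
        ∀ v, Part Q k σ (A.filter fun i => g i = v))) :
    ∀ k < G, ∀ σ A, Q k σ A → n - a < A.card →
      (∃ A', a ≤ A'.card ∧ A'.card ≤ n - a ∧ wts S T σ A' ∈ labels G m l b μ Z z0) ∨
      ∃ k < G, z0 < (Z k).card ∧ Walks S T (b k) (μ k) (Z k) σ := by
  classical
  intro k
  induction k using Nat.strong_induction_on with
  | _ k ih =>
    intro hk σ A hQ hA
    have hAn : A.card ≤ n := by
      have := Finset.card_le_univ A
      rwa [Fintype.card_fin] at this
    -- a part with at least `a` elements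
    have hpart : ∀ A1, Part Q k σ A1 → a ≤ A1.card →
        (∃ A', a ≤ A'.card ∧ A'.card ≤ n - a ∧ wts S T σ A' ∈ labels G m l b μ Z z0) ∨
        ∃ k < G, z0 < (Z k).card ∧ Walks S T (b k) (μ k) (Z k) σ := by
      intro A1 hA1 ha1
      rcases hA1 with h3 | ⟨j, hj, hQj⟩
      · omega
      · rcases Nat.lt_or_ge (n - a) A1.card with h4 | h4
        · exact ih j hj (hj.trans hk) σ A1 hQj h4
        · left
          refine ⟨A1, ha1, h4, ?_⟩
          rw [hlab j (hj.trans hk) σ A1 hQj]
          unfold labels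
          rw [mem_union, mem_union]
          exact Or.inl (Or.inl (mem_image.2 ⟨j, mem_range.2 (hj.trans hk), rfl⟩))
    rcases hstep k hk σ A hQ with ⟨A1, A2, h3, h4, h5⟩ | ⟨ψ, g, h3, h4⟩
    · have h6 := Finset.card_union_le A1 A2
      rw [h3] at h6
      rcases Nat.lt_or_ge A1.card a with h7 | h7
      · exact hpart A2 h5 (by omega)
      · exact hpart A1 h4 h7
    · by_cases hbig : ∃ v, a ≤ (A.filter fun i => g i = v).card
      · obtain ⟨v, hv⟩ := hbig
        exact hpart _ (h4 v) hv
      · push Not at hbig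
        have hn0 : 0 < n := by omega
        rcases cut (Z := Z k) (b := b k) (μ := μ k) (ψ := ψ) (g := g) (u := fun i => S i * ∏ s, T s (σ s i)) (A := A)
          (w := fun v => wts S T σ (A.filter fun i => g i = v)) (a := a) (by omega) (by omega) (hβ k hk) h3 (h2 k hk)
          (fun v => rfl) (fun A' _ hA' => hgen.empty hn0 (σ := σ) hA') hbig with
          ⟨y, v, A', h5, h6, h7, h8⟩ | ⟨r, D, hr1, hr2, hD1, hD2, hD3, hD4, hD5, hD6⟩
        · left
          refine ⟨A', h6, by omega, ?_⟩
          unfold labels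
          rw [mem_union, mem_union]
          refine Or.inl (Or.inr (mem_biUnion.2 ⟨k, mem_range.2 hk, mem_image.2 ⟨(y, v), mem_univ _, ?_⟩⟩))
          simp only
          rw [h8, inv_mul_cancel_left]
          rfl
        · rcases Nat.lt_or_ge z0 (Z k).card with hz | hz
          · right
            exact ⟨k, hk, hz, r, D, hr1, hr2, hD1, hD2, hD3⟩
          · left
            obtain ⟨I, hI, h5, h6⟩ := group_walks (by omega : 0 < a) (Z k) hD3 hD5 (by
              refine le_trans (by omega) (Finset.card_le_card hD6))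
            refine ⟨I.biUnion D, h5, by omega, ?_⟩
            unfold labels
            rw [mem_union]
            refine Or.inr (mem_biUnion.2 ⟨k, mem_filter.2 ⟨mem_range.2 hk, hz⟩, mem_image.2 ⟨(I, I.image r), ?_, ?_⟩⟩)
            · rw [mem_product, mem_powerset, mem_powerset]
              refine ⟨hI, fun x hx => ?_⟩
              obtain ⟨z, hz1, rfl⟩ := mem_image.1 hx
              exact hr1 z (hI hz1)
            · simp only
              rw [Finset.prod_image fun z hz z' hz' h => hr2 z (hI hz) z' (hI hz') h,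
                Finset.prod_congr rfl fun z hz => hD2 z (hI hz), Finset.prod_mul_distrib, inv_mul_cancel_left]
              unfold wts
              rw [Finset.prod_biUnion fun z hz z' hz' h => hD3 z (hI hz) z' (hI hz') h]

/-- the matchings with a cut of a given weight -/
theorem card_cut {S : Fin n → H} {T : Fin e → Fin n → H} (hgen : Generic S T) {a : ℕ} (ha : 1 ≤ a) (han : 2 * a ≤ n)
    (h : H) [DecidablePred fun σ : Fin e → Equiv.Perm (Fin n) => ∃ A', a ≤ A'.card ∧ A'.card ≤ n - a ∧ wts S T σ A' = h] :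
    (univ.filter fun σ : Fin e → Equiv.Perm (Fin n) => ∃ A', a ≤ A'.card ∧ A'.card ≤ n - a ∧ wts S T σ A' = h).card *
      n.choose a ^ e ≤ n.factorial ^ e := by
  classical
  rcases (univ.filter fun σ : Fin e → Equiv.Perm (Fin n) => ∃ A', a ≤ A'.card ∧ A'.card ≤ n - a ∧
    wts S T σ A' = h).eq_empty_or_nonempty with h0 | ⟨σ0, h0⟩
  · rw [h0, Finset.card_empty, zero_mul]
    exact Nat.zero_le _
  · obtain ⟨A0, h1, h2, h3⟩ := (mem_filter.1 h0).2
    have hsub : (univ.filter fun σ : Fin e → Equiv.Perm (Fin n) => ∃ A', a ≤ A'.card ∧ A'.card ≤ n - a ∧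
        wts S T σ A' = h) ⊆ Fintype.piFinset fun s => univ.filter fun τ : Equiv.Perm (Fin n) =>
        A0.image τ = A0.image (σ0 s) := by
      intro σ hσ
      obtain ⟨A1, h4, h5, h6⟩ := (mem_filter.1 hσ).2
      obtain ⟨h7, h8⟩ := hgen.eq_of (σ := σ) (σ' := σ0) (A := A1) (A' := A0) (by omega) (by omega) (h6.trans h3.symm)
      rw [Fintype.mem_piFinset]
      intro s
      rw [mem_filter]
      refine ⟨mem_univ _, ?_⟩
      rw [← h8 s, h7]
    have hch : n.choose a ≤ n.choose A0.card := by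
      have h4 := choose_window (n := n) (d := n - 2 * a + 1) (i := A0.card) (by omega) (by omega) (by omega) (by omega)
      have h5 : (n - (n - 2 * a + 1) + 1) / 2 = a := by omega
      rwa [h5] at h4
    calc (univ.filter fun σ : Fin e → Equiv.Perm (Fin n) => ∃ A', a ≤ A'.card ∧ A'.card ≤ n - a ∧
        wts S T σ A' = h).card * n.choose a ^ e ≤
        (∏ s, (univ.filter fun τ : Equiv.Perm (Fin n) => A0.image τ = A0.image (σ0 s)).card) *
          n.choose A0.card ^ e := by
          refine Nat.mul_le_mul ?_ (Nat.pow_le_pow_left hch _)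
          rw [← Fintype.card_piFinset]
          exact Finset.card_le_card hsub
      _ = ∏ s : Fin e, ((univ.filter fun τ : Equiv.Perm (Fin n) => A0.image τ = A0.image (σ0 s)).card *
          n.choose A0.card) := by
          rw [Finset.prod_mul_distrib, Finset.prod_const, Finset.card_univ, Fintype.card_fin]
      _ = n.factorial ^ e := by
          rw [Finset.prod_congr rfl fun s _ => card_maps (card_image_perm (σ0 s) A0), Finset.prod_const,
            Finset.card_univ, Fintype.card_fin]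

/-- the matchings with walks between many unmatched labels -/
theorem card_walks (hC : S_CNT2) {S : Fin n → H} {T : Fin e → Fin n → H} (hgen : Generic S T) {m : ℕ}
    {b μ : Fin m → H} {Z : Finset (Fin m)} (hZ : 2 ≤ Z.card)
    [DecidablePred fun σ : Fin e → Equiv.Perm (Fin n) => Walks S T b μ Z σ] :
    (univ.filter fun σ : Fin e → Equiv.Perm (Fin n) => Walks S T b μ Z σ).card ≤
      Z.card.factorial * (n - Z.card + 1).factorial ^ e := by
  classical
  set F : Equiv.Perm {x // x ∈ Z} → Finset (Fin e → Equiv.Perm (Fin n)) := fun ρ => univ.filter fun σ =>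
    ∃ D : Fin m → Finset (Fin n), (∀ z ∈ Z, (D z).Nonempty) ∧
      (∀ z : {x // x ∈ Z}, μ z = b (ρ z) * wts S T σ (D z)) ∧
      (∀ z ∈ Z, ∀ z' ∈ Z, z ≠ z' → Disjoint (D z) (D z')) with hF
  have h1 : (univ.filter fun σ : Fin e → Equiv.Perm (Fin n) => Walks S T b μ Z σ) ⊆ univ.biUnion F := by
    intro σ hσ
    obtain ⟨r, D, hr1, hr2, hD1, hD2, hD3⟩ := (mem_filter.1 hσ).2
    set ρ : Equiv.Perm {x // x ∈ Z} := Equiv.ofBijective (fun z => ⟨r z.1, hr1 z.1 z.2⟩)
      (Finite.injective_iff_bijective.1 fun z z' h => Subtype.ext (hr2 _ z.2 _ z'.2 (congrArg Subtype.val h))) with hρ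
    refine mem_biUnion.2 ⟨ρ, mem_univ _, mem_filter.2 ⟨mem_univ _, D, hD1, fun z => hD2 z.1 z.2, hD3⟩⟩
  have h2 : ∀ ρ, (F ρ).card ≤ (n - Z.card + 1).factorial ^ e := by
    intro ρ
    rcases (F ρ).eq_empty_or_nonempty with h0 | ⟨σ0, h0⟩
    · rw [h0, Finset.card_empty]
      exact Nat.zero_le _
    · obtain ⟨D0, hD1, hD2, hD3⟩ := (mem_filter.1 h0).2
      have hlt : ∀ (D : Fin m → Finset (Fin n)), (∀ z ∈ Z, (D z).Nonempty) →
          (∀ z ∈ Z, ∀ z' ∈ Z, z ≠ z' → Disjoint (D z) (D z')) → ∀ z ∈ Z, (D z).card < n := by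
        intro D h3 h4 z hz
        obtain ⟨z', hz', hne⟩ := Finset.exists_mem_ne (by omega : 1 < Z.card) z
        have h5 := h4 z' hz' z hz hne
        have h6 : (D z' ∪ D z).card ≤ n := by
          refine (Finset.card_le_univ _).trans ?_
          rw [Fintype.card_fin]
        rw [Finset.card_union_of_disjoint h5] at h6
        have h7 := Finset.card_pos.2 (h3 z' hz')
        omega
      have hsub : F ρ ⊆ Fintype.piFinset fun s => univ.filter fun τ : Equiv.Perm (Fin n) =>
          ∀ z ∈ Z, (D0 z).image τ = (D0 z).image (σ0 s) := by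
        intro σ hσ
        obtain ⟨D, hE1, hE2, hE3⟩ := (mem_filter.1 hσ).2
        rw [Fintype.mem_piFinset]
        intro s
        rw [mem_filter]
        refine ⟨mem_univ _, fun z hz => ?_⟩
        have h5 := hE2 ⟨z, hz⟩
        have h6 := hD2 ⟨z, hz⟩
        simp only at h5 h6
        obtain ⟨h7, h8⟩ := hgen.eq_of (hlt D hE1 hE3 z hz) (hlt D0 hD1 hD3 z hz) (mul_left_cancel (h5.symm.trans h6))
        rw [← h8 s, h7]
      refine (Finset.card_le_card hsub).trans ?_
      rw [Fintype.card_piFinset]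
      have h5 : ∀ s ∈ (univ : Finset (Fin e)), (univ.filter fun τ : Equiv.Perm (Fin n) =>
          ∀ z ∈ Z, (D0 z).image τ = (D0 z).image (σ0 s)).card ≤ (n - Z.card + 1).factorial := by
        intro s _
        refine (Finset.card_le_card ?_).trans
          (hC n (Fin m) Z D0 (fun z => (D0 z).image (σ0 s)) (Finset.card_pos.1 (by omega)) hD1 hD3)
        intro τ hτ
        simp only [mem_filter] at hτ ⊢
        exact hτ
      refine (Finset.prod_le_prod' h5).trans ?_
      rw [Finset.prod_const, Finset.card_univ, Fintype.card_fin]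
  refine (Finset.card_le_card h1).trans (Finset.card_biUnion_le.trans ?_)
  refine (Finset.sum_le_card_nsmul _ _ _ fun ρ _ => h2 ρ).trans ?_
  rw [Finset.card_univ, Fintype.card_perm, Fintype.card_coe, smul_eq_mul]

/-- no walks if there are more unmatched labels than variables in a matching -/
theorem walks_le {S : Fin n → H} {T : Fin e → Fin n → H} {m : ℕ}
    {b μ : Fin m → H} {Z : Finset (Fin m)} {σ : Fin e → Equiv.Perm (Fin n)} (h : Walks S T b μ Z σ) : Z.card ≤ n := by
  classical
  obtain ⟨r, D, hr1, hr2, hD1, hD2, hD3⟩ := h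
  have h1 : (Z.biUnion D).card = ∑ z ∈ Z, (D z).card := Finset.card_biUnion fun z hz z' hz' h => hD3 z hz z' hz' h
  have h2 : ∑ z ∈ Z, 1 ≤ ∑ z ∈ Z, (D z).card := Finset.sum_le_sum fun z hz => Finset.card_pos.2 (hD1 z hz)
  have h3 := Finset.card_le_univ (Z.biUnion D)
  rw [Fintype.card_fin] at h3
  rw [← Finset.card_eq_sum_ones] at h2
  omega

end

end Pool.Agent.Helper1x.EC
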