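import Pool.Agent.Helper1x.EC.Def2

/-!
# Piece DEC of project EC: a form with nonzero coefficients decides the matching problem
-/

set_option autoImplicit false

namespace Pool.Agent.Helper1x.EC

open Finset MvPolynomial
open scoped Classical

theorem scale_mon {n e : ℕ} {K : Type} [Field K] (y : V n e → K) (σ : Fin e → Equiv.Perm (Fin n)) (r : K) :
    scale y (monomial (mon σ univ) r) =
      monomial (mon σ univ) (r * ∏ i, y (i, fun s => σ s i)) := by
  rw [scale, aeval_monomial, algebraMap_eq, mon, ← Finsupp.prod_finsetSum_index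
    (fun a => pow_zero _) (fun a b c => pow_add _ _ _)]
  have h1 : ∀ i : Fin n, (Finsupp.single ((i, fun s => σ s i) : V n e) 1).prod
      (fun a b => (C (y a) * X a : MvPolynomial (V n e) K) ^ b) =
      C (y (i, fun s => σ s i)) * monomial (Finsupp.single (i, fun s => σ s i) 1) 1 := by
    intro i
    exact (Finsupp.prod_single_index (h := fun a b => (C (y a) * X a : MvPolynomial (V n e) K) ^ b)
      (pow_zero _)).trans (pow_one _)
  rw [Finset.prod_congr rfl fun i _ => h1 i, Finset.prod_mul_distrib, ← map_prod,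
    ← monomial_sum_one, ← mul_assoc, ← C_mul, C_mul_monomial, mul_one]

theorem mon_inj {n e : ℕ} {σ σ' : Fin e → Equiv.Perm (Fin n)} (h : mon σ univ = mon σ' univ) :
    σ = σ' := by
  funext s
  ext i
  have h1 : mon σ univ (i, fun s => σ s i) ≠ 0 := by
    rw [mon, Finsupp.finsetSum_apply]
    intro h2
    have h3 := (Finset.sum_eq_zero_iff.1 h2) i (Finset.mem_univ _)
    simp at h3
  rw [h, mon, Finsupp.finsetSum_apply] at h1
  obtain ⟨j, _, hj⟩ := Finset.exists_ne_zero_of_sum_ne_zero h1
  rw [Finsupp.single_apply] at hj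
  have h2 : ((j, fun s => σ' s j) : V n e) = (i, fun s => σ s i) := by
    by_contra h3
    exact hj (if_neg h3)
  rw [Prod.mk.injEq] at h2
  obtain ⟨rfl, h3⟩ := h2
  exact congrArg Fin.val (congrFun h3 s).symm

theorem t_DEC : S_DEC := by
  intro K _ n e a ha y
  have h1 : scale y (form a) = ∑ σ : Fin e → Equiv.Perm (Fin n),
      monomial (mon σ univ) (a σ * ∏ i, y (i, fun s => σ s i)) := by
    rw [form, map_sum]
    exact Finset.sum_congr rfl fun σ _ => scale_mon y σ (a σ)
  constructor
  · intro h
    rw [h1] at h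
    obtain ⟨σ, _, hσ⟩ := Finset.exists_ne_zero_of_sum_ne_zero h
    refine ⟨σ, fun i hi => hσ ?_⟩
    rw [Finset.prod_eq_zero (Finset.mem_univ i) hi, mul_zero, map_zero]
  · rintro ⟨σ, hσ⟩ h
    rw [h1] at h
    have h2 := congrArg (coeff (mon σ univ)) h
    rw [coeff_sum, coeff_zero, Finset.sum_eq_single σ] at h2
    · rw [coeff_monomial, if_pos rfl] at h2
      exact mul_ne_zero (ha σ) (Finset.prod_ne_zero_iff.2 fun i _ => hσ i) h2
    · intro σ' _ hne
      rw [coeff_monomial, if_neg fun h3 => hne (mon_inj h3)]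
    · intro h3
      exact absurd (Finset.mem_univ _) h3

end Pool.Agent.Helper1x.EC
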