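import Mathlib

/-!
# Equivariant circuits with determinant gates for multidimensional matchings: definitions

Project EC (helper1). The variables are `x(i, c)` with `i : Fin n` and `c : Fin e → Fin n`. A matching is a tuple `σ` of
`e` permutations, its monomial is the product of the `x(i, (σ_1 i, ..., σ_e i))`.
-/

set_option autoImplicit false

namespace Pool.Agent.Helper1x.EC

open Finset

/-- the indices of the variables -/
abbrev V (n e : ℕ) := Fin n × (Fin e → Fin n)

/-- the part of the monomial of the matching `σ` in a set `A` of first coordinates -/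
noncomputable def mon {n e : ℕ} (σ : Fin e → Equiv.Perm (Fin n)) (A : Finset (Fin n)) : V n e →₀ ℕ :=
  ∑ i ∈ A, Finsupp.single (i, fun s => σ s i) 1

/-- the substitution `x ↦ c x` of a diagonal torus element -/
noncomputable def scale {X K : Type*} [Field K] (c : X → K) : MvPolynomial X K →ₐ[K] MvPolynomial X K :=
  MvPolynomial.aeval fun x => MvPolynomial.C (c x) * MvPolynomial.X x

/-- the span of the affine forms and of the polynomials `p j`, `j < k` -/
noncomputable def Earlier {X K : Type*} [Field K] (p : ℕ → MvPolynomial X K) (k : ℕ) : Submodule K (MvPolynomial X K) :=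
  Submodule.span K ({1} ∪ Set.range MvPolynomial.X ∪ p '' Set.Iio k)

/-- quadratic gate: a linear combination of products of two affine forms or earlier gates -/
def Quadratic {X K : Type*} [Field K] (p : ℕ → MvPolynomial X K) (k : ℕ) : Prop :=
  p k ∈ Earlier p k * Earlier p k

/-- determinant gate of size `m` -/
def DetGate {X K : Type*} [Field K] (c : X → K) (p : ℕ → MvPolynomial X K) (k m : ℕ) : Prop :=
  ∃ (M : Matrix (Fin m) (Fin m) (MvPolynomial X K)) (B C : Matrix (Fin m) (Fin m) K), (∀ u v, M u v ∈ Earlier p k) ∧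
    IsUnit B.det ∧ IsUnit C.det ∧ M.map (scale c) = B.map MvPolynomial.C * M * C.map MvPolynomial.C ∧ p k = M.det

/-- gate for a generalized matrix function `∑ π, χ π ∏ v, M (π v) v` of size `m` -/
def MatrixFunctionGate {X K : Type*} [Field K] (c : X → K) (p : ℕ → MvPolynomial X K) (k m : ℕ) : Prop :=
  ∃ (M : Matrix (Fin m) (Fin m) (MvPolynomial X K)) (b μ : Fin m → Kˣ) (χ : Equiv.Perm (Fin m) → K),
    (∀ u v, M u v ∈ Earlier p k) ∧
    (∀ u v, scale c (M u v) = MvPolynomial.C ((b u : K) * (μ v : K)) * M u v) ∧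
    p k = ∑ π, MvPolynomial.C (χ π) * ∏ v, M (π v) v

/-- `p 0, ..., p (G - 1)` is a circuit which is equivariant under the torus element `c`; the gate `k` has matrix size
`m k` (zero for quadratic gates) -/
def Circuit {X K : Type*} [Field K] (c : X → K) (G : ℕ) (p : ℕ → MvPolynomial X K) (m : ℕ → ℕ) : Prop :=
  ∀ k < G, (∃ a : K, scale c (p k) = MvPolynomial.C a * p k) ∧
    (Quadratic p k ∨ DetGate c p k (m k) ∨ MatrixFunctionGate c p k (m k))

/-- the value of a character of the torus at a variable -/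
def cof {n e : ℕ} {K : Type*} [Field K] (S : Fin n → Kˣ) (T : Fin e → Fin n → Kˣ) (x : V n e) : Kˣ :=
  S x.1 * ∏ s, T s (x.2 s)

/-- A torus element `(S, T)` is generic if products of entries over an index set `A` of the first coordinate and index
sets `B s` of the other coordinates, all of the same size less than `n`, are equal only for equal sets. -/
def Generic {n e : ℕ} {H : Type*} [CommGroup H] (S : Fin n → H) (T : Fin e → Fin n → H) : Prop :=
  ∀ (A A' : Finset (Fin n)) (B B' : Fin e → Finset (Fin n)), A.card < n → A'.card < n → (∀ s, (B s).card = A.card) →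
    (∀ s, (B' s).card = A'.card) →
    (∏ i ∈ A, S i) * (∏ s, ∏ j ∈ B s, T s j) = (∏ i ∈ A', S i) * (∏ s, ∏ j ∈ B' s, T s j) → A = A' ∧ B = B'

/-! ### Pieces -/

/-- NUM1. The case of many unmatched labels. -/
def S_NUM1 (n0 : ℕ) : Prop := ∀ n e z : ℕ, n0 ≤ n → 2 ≤ e → n / 4 < z → z ≤ n →
  (4 * (z.factorial * ((n - z + 1).factorial) ^ e)) ^ 4 * 2 ^ (e * n) ≤ (n.factorial ^ e) ^ 4

/-- NUM2. The case of few unmatched labels. -/
def S_NUM2 (n0 : ℕ) : Prop := ∀ n e t : ℕ, n0 ≤ n → 2 ≤ e → t ^ 4 < 2 ^ (e * n) →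
  4 * (t + t ^ 2 + t * 4 ^ (n / 4)) < 3 * (n.choose (n / 3)) ^ e

/-- CNT2. Permutations with prescribed images of disjoint nonempty sets (use `DomMulAct.stabilizer_card` for the
function which sends the elements of `A z` to `some z` and the others to `none`, and
`∏ k_z! * k_0! ≤ (k_0 + ∑ k_z - |Z| + 1)!`). -/
def S_CNT2 : Prop := ∀ (n : ℕ) (ι : Type) [DecidableEq ι] (Z : Finset ι) (A B : ι → Finset (Fin n)), Z.Nonempty →
  (∀ z ∈ Z, (A z).Nonempty) → (∀ z ∈ Z, ∀ z' ∈ Z, z ≠ z' → Disjoint (A z) (A z')) →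
  (univ.filter fun τ : Equiv.Perm (Fin n) => ∀ z ∈ Z, (A z).image τ = B z).card ≤ (n - Z.card + 1).factorial

/-- GEN. Generic elements exist over infinite fields (adapt `Pool.Agent.Helper1x.EP.exists_pair`, it uses
`Pool.Agent.Helper1x.EQ.exists_generic K (Option (Fin e)) (Fin n) 1`). -/
def S_GEN : Prop := ∀ (K : Type) [Field K] [Infinite K] (n e : ℕ), ∃ (S : Fin n → Kˣ) (T : Fin e → Fin n → Kˣ),
  Generic S T

/-- UP. A circuit of quadratic gates (equivariant under ALL torus elements) for the sum of all matching monomials: gates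
`P k B = ∑ c ∈ ∏ B s, x(k-1, c) * P (k-1) (B \ c)` for `1 ≤ k ≤ n` and `|B s| = k`; the affine forms are free. -/
def S_UP : Prop := ∀ (K : Type) [Field K] (n e : ℕ), 1 ≤ n → 1 ≤ e → ∃ (G : ℕ) (p : ℕ → MvPolynomial (V n e) K), G ≤ 2 ^ (e * n) ∧
  (∀ (S : Fin n → Kˣ) (T : Fin e → Fin n → Kˣ), Circuit (fun x => (cof S T x : K)) G p fun _ => 0) ∧
  (∑ σ : Fin e → Equiv.Perm (Fin n), MvPolynomial.monomial (mon σ univ) (1 : K)) ∈ Earlier p G

end Pool.Agent.Helper1x.EC
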