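import Pool.Agent.Helper1x.EC.Def

/-!
# Equivariant circuits with determinant gates for multidimensional matchings: blocks

Project EC (helper1), second part: circuits which are equivariant only under a torus element with ones outside a block.
-/

set_option autoImplicit false

namespace Pool.Agent.Helper1x.EC

open Finset

/-- the form with the coefficients `a` of the matchings -/
noncomputable def form {n e : ℕ} {K : Type*} [Field K] (a : (Fin e → Equiv.Perm (Fin n)) → K) :
    MvPolynomial (V n e) K := ∑ σ : Fin e → Equiv.Perm (Fin n), MvPolynomial.monomial (mon σ univ) (a σ)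

/-- the torus element which is `(S, T)` on the block `ι` and one elsewhere -/
noncomputable def blk {n e k : ℕ} {K : Type*} [Field K] (ι : Fin k ↪ Fin n) (S : Fin k → Kˣ) (T : Fin e → Fin k → Kˣ) :
    V n e → K :=
  fun x => (cof (Function.extend ι S 1) (fun s => Function.extend ι (T s) 1) x : Kˣ)

/-! ### Pieces -/

/-- SUB. Restriction to a block: substitute in all gates `x(i, c) ↦ x(a, c')` if `i = ι a` and `c = ι ∘ c'`,
`x(i, c) ↦ 1` if `i` is not in the range of `ι` and `c` is the constant `i`, and `x(i, c) ↦ 0` otherwise. This
substitution `θ` is an algebra homomorphism, `θ ∘ scale (blk ι S T) = scale (cof S T) ∘ θ` (check on the variables), it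
maps `Earlier p k` into `Earlier (θ ∘ p) k` and products of such submodules to products (`Submodule.map_mul`), so the
three types of gates and the eigenvectors are preserved. The monomial of `σ` survives only if all `σ s` fix the
complement of the range of `ι`, that is if `σ s = (τ s).viaEmbedding ι`, and becomes the monomial of `τ`. -/
def S_SUB : Prop := ∀ (K : Type) [Field K] (n e k : ℕ) (ι : Fin k ↪ Fin n) (S : Fin k → Kˣ) (T : Fin e → Fin k → Kˣ)
  (a : (Fin e → Equiv.Perm (Fin n)) → K) (G : ℕ) (p : ℕ → MvPolynomial (V n e) K) (m : ℕ → ℕ),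
  Circuit (blk ι S T) G p m → form a ∈ Earlier p G → ∃ p' : ℕ → MvPolynomial (V k e) K,
    Circuit (fun x => (cof S T x : K)) G p' m ∧
    form (fun τ : Fin e → Equiv.Perm (Fin k) => a fun s => (τ s).viaEmbedding ι) ∈ Earlier p' G

/-- HOM. Homogenization. Grade the polynomials by the multidegree `w(x) ∈ ℕ^{(e+1) k}` of the variables, which counts
the row `ι a` and the columns `ι a` in the direction `s` (coordinates `Option (Fin e) × Fin k`). For a set `U` of
coordinates let `[q]_U` be the component of multidegree `1_U` (for example `MvPolynomial.weightedHomogeneousComponent`).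
Then `[q q']_U = ∑ [q]_{U1} [q']_{U2}` over `U = U1 ⊔ U2`, `[1]_U` and `[x]_U` are zero or `1` and `x`, `[·]_U` is
linear. The gates of the new circuit are `[p j]_U`, `j < G`, all `U` (`2 ^ ((e+1) k)` for every `j`, in the order of
`j`): `[p j]_U` is in `Earlier * Earlier` again. `form a` is homogeneous of degree `1_{all}`. Under `blk ι S T` the
component `[q]_U` is an eigenvector: the value at a monomial depends only on its multidegree. -/
def S_HOM : Prop := ∀ (K : Type) [Field K] (n e k : ℕ) (ι : Fin k ↪ Fin n) (a : (Fin e → Equiv.Perm (Fin n)) → K)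
  (G : ℕ) (p : ℕ → MvPolynomial (V n e) K), (∀ j < G, Quadratic p j) → form a ∈ Earlier p G →
  ∃ p' : ℕ → MvPolynomial (V n e) K,
    (∀ (S : Fin k → Kˣ) (T : Fin e → Fin k → Kˣ), Circuit (blk ι S T) (G * 2 ^ ((e + 1) * k)) p' fun _ => 0) ∧
    form a ∈ Earlier p' (G * 2 ^ ((e + 1) * k))

/-- DEC. A form with nonzero coefficients decides the matching problem: for a zero-one point `y` the scaled form is not
zero if and only if there is a perfect matching in the hypergraph of `y`. -/
def S_DEC : Prop := ∀ (K : Type) [Field K] (n e : ℕ) (a : (Fin e → Equiv.Perm (Fin n)) → K), (∀ σ, a σ ≠ 0) →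
  ∀ y : V n e → K, (scale y (form a) ≠ 0 ↔ ∃ σ : Fin e → Equiv.Perm (Fin n), ∀ i, y (i, fun s => σ s i) ≠ 0)

end Pool.Agent.Helper1x.EC
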