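import Pool.Agent.Helper1x.EC.Def
import Pool.Agent.Helper1x.EQ.Gen

/-!
# Project EC (helper1), piece GEN (helper69): generic elements exist over infinite fields
-/

set_option autoImplicit false

namespace Pool.Agent.Helper1x.EC

open Finset

namespace GenP

theorem prod_ind {ι G : Type*} [Fintype ι] [DecidableEq ι] [CommGroup G] (t : ι → G) (A A' : Finset ι) :
    ∏ i, t i ^ ((if i ∈ A then (1 : ℤ) else 0) - (if i ∈ A' then 1 else 0)) =
      (∏ i ∈ A, t i) * (∏ i ∈ A', t i)⁻¹ := by
  have h : ∀ B : Finset ι, ∏ i, t i ^ (if i ∈ B then (1 : ℤ) else 0) = ∏ i ∈ B, t i := by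
    intro B
    rw [← Finset.prod_subset (Finset.subset_univ B)]
    · exact Finset.prod_congr rfl fun i hi => by rw [if_pos hi, zpow_one]
    · intro i _ hi
      rw [if_neg hi, zpow_zero]
  rw [← h A, ← h A', ← Finset.prod_inv_distrib, ← Finset.prod_mul_distrib]
  exact Finset.prod_congr rfl fun i _ => by rw [zpow_sub]

theorem ind_abs {ι : Type*} [DecidableEq ι] (A A' : Finset ι) (i : ι) :
    |(if i ∈ A then (1 : ℤ) else 0) - (if i ∈ A' then 1 else 0)| ≤ 1 := by
  split_ifs <;> norm_num

theorem ind_eq {ι : Type*} [DecidableEq ι] (A A' : Finset ι)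
    (h : ∀ i, (if i ∈ A then (1 : ℤ) else 0) - (if i ∈ A' then 1 else 0) = 0) : A = A' := by
  ext i
  have := h i
  split_ifs at this <;> simp_all

end GenP

open GenP in
theorem t_GEN : S_GEN := by
  intro K _ _ n e
  classical
  obtain ⟨t, ht⟩ := Pool.Agent.Helper1x.EQ.exists_generic K (Option (Fin e)) (Fin n) 1
  refine ⟨t none, fun s => t (some s), ?_⟩
  intro A A' B B' _ _ _ _ h
  have h1 := ht (fun o i => match o with
    | none => (if i ∈ A then (1 : ℤ) else 0) - (if i ∈ A' then 1 else 0)
    | some s => (if i ∈ B s then (1 : ℤ) else 0) - (if i ∈ B' s then 1 else 0)) (by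
      intro o i
      cases o with
      | none => simpa using ind_abs A A' i
      | some s => simpa using ind_abs (B s) (B' s) i) (by
      rw [Fintype.prod_option]
      simp only [prod_ind]
      rw [Finset.prod_mul_distrib, Finset.prod_inv_distrib, mul_mul_mul_comm, h, ← mul_inv, mul_inv_cancel])
  refine ⟨ind_eq _ _ fun i => ?_, ?_⟩
  · exact congrFun (congrFun h1 none) i
  · funext s
    exact ind_eq _ _ fun i => congrFun (congrFun h1 (some s)) i

end Pool.Agent.Helper1x.EC
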