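import Pool.Agent.Helper1x.EC.Def2

/-!
# Piece HOM of project EC: homogenization
-/

set_option autoImplicit false

namespace Pool.Agent.Helper1x.EC

open Finset MvPolynomial
open scoped Classical

section hom

variable {n e k : ℕ} {K : Type} [Field K]

/-- the multidegree of a variable -/
def hw (ι : Fin k ↪ Fin n) (x : V n e) : Option (Fin e) × Fin k → ℕ
  | (none, a) => if x.1 = ι a then 1 else 0
  | (some s, a) => if x.2 s = ι a then 1 else 0

/-- the indicator function of `U` -/
noncomputable def hind (U : Finset (Option (Fin e) × Fin k)) : Option (Fin e) × Fin k → ℕ :=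
  fun u => if u ∈ U then 1 else 0

theorem hind_inj {U U' : Finset (Option (Fin e) × Fin k)} (h : hind U = hind U') : U = U' := by
  ext u
  have h1 := congrFun h u
  simp only [hind] at h1
  by_cases h2 : u ∈ U <;> by_cases h3 : u ∈ U' <;> simp_all

theorem hind_add {U U' : Finset (Option (Fin e) × Fin k)} (h : U' ⊆ U) :
    hind U' + hind (U \ U') = hind U := by
  funext u
  simp only [hind, Pi.add_apply, Finset.mem_sdiff]
  by_cases h2 : u ∈ U'
  · simp [h2, h h2]
  · by_cases h3 : u ∈ U <;> simp [h2, h3]

/-- sums of multidegrees which are the indicator function of `U` -/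
theorem hind_split {U : Finset (Option (Fin e) × Fin k)} {f g : Option (Fin e) × Fin k → ℕ}
    (h : f + g = hind U) : ∃ U' ⊆ U, f = hind U' ∧ g = hind (U \ U') := by
  have h1 : ∀ u, f u + g u = if u ∈ U then 1 else 0 := fun u => congrFun h u
  refine ⟨U.filter fun u => f u = 1, Finset.filter_subset _ _, ?_, ?_⟩
  · funext u
    have h2 := h1 u
    simp only [hind, Finset.mem_filter]
    by_cases h3 : u ∈ U
    · rw [if_pos h3] at h2
      by_cases h4 : f u = 1
      · rw [if_pos ⟨h3, h4⟩, h4]
      · rw [if_neg fun h5 => h4 h5.2]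
        omega
    · rw [if_neg h3] at h2
      rw [if_neg fun h5 => h3 h5.1]
      omega
  · funext u
    have h2 := h1 u
    simp only [hind, Finset.mem_filter, Finset.mem_sdiff]
    by_cases h3 : u ∈ U
    · rw [if_pos h3] at h2
      by_cases h4 : f u = 1
      · rw [if_neg fun h5 => h5.2 ⟨h3, h4⟩]
        omega
      · rw [if_pos ⟨h3, fun h5 => h4 h5.2⟩]
        omega
    · rw [if_neg h3] at h2
      rw [if_neg fun h5 => h3 h5.1]
      omega

variable (ι : Fin k ↪ Fin n)

/-- the component of multidegree `U` -/
noncomputable def hcomp (U : Finset (Option (Fin e) × Fin k)) :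
    MvPolynomial (V n e) K →ₗ[K] MvPolynomial (V n e) K :=
  weightedHomogeneousComponent (hw ι) (hind U)

theorem coeff_hcomp (U : Finset (Option (Fin e) × Fin k)) (q : MvPolynomial (V n e) K)
    (d : V n e →₀ ℕ) : coeff d (hcomp ι U q) =
      if Finsupp.weight (hw ι) d = hind U then coeff d q else 0 := by
  rw [hcomp, coeff_weightedHomogeneousComponent]

theorem hcomp_mul (U : Finset (Option (Fin e) × Fin k)) (q q' : MvPolynomial (V n e) K) :
    hcomp ι U (q * q') = ∑ U' ∈ U.powerset, hcomp ι U' q * hcomp ι (U \ U') q' := by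
  ext d
  rw [coeff_hcomp, coeff_sum]
  have h1 : ∀ U' : Finset (Option (Fin e) × Fin k), coeff d (hcomp ι U' q * hcomp ι (U \ U') q') =
      ∑ x ∈ antidiagonal d, (if Finsupp.weight (hw ι) x.1 = hind U' then coeff x.1 q else 0) *
        (if Finsupp.weight (hw ι) x.2 = hind (U \ U') then coeff x.2 q' else 0) := by
    intro U'
    rw [coeff_mul]
    refine Finset.sum_congr rfl fun x _ => ?_
    rw [coeff_hcomp, coeff_hcomp]
  rw [Finset.sum_congr rfl fun U' _ => h1 U', Finset.sum_comm]
  split_ifs with h
  · rw [coeff_mul]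
    refine Finset.sum_congr rfl fun x hx => ?_
    have h2 : Finsupp.weight (hw ι) x.1 + Finsupp.weight (hw ι) x.2 = hind U := by
      rw [← map_add, mem_antidiagonal.1 hx, h]
    obtain ⟨U0, hU0, hf, hg⟩ := hind_split h2
    rw [Finset.sum_eq_single U0]
    · rw [if_pos hf, if_pos hg]
    · intro U' _ hne
      rw [if_neg fun h3 => hne (hind_inj (h3.symm.trans hf)), zero_mul]
    · intro h3
      exact absurd (Finset.mem_powerset.2 hU0) h3
  · symm
    refine Finset.sum_eq_zero fun x hx => Finset.sum_eq_zero fun U' hU' => ?_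
    by_cases h3 : Finsupp.weight (hw ι) x.1 = hind U'
    · by_cases h4 : Finsupp.weight (hw ι) x.2 = hind (U \ U')
      · exfalso
        apply h
        rw [← mem_antidiagonal.1 hx, map_add, h3, h4, hind_add (Finset.mem_powerset.1 hU')]
      · rw [if_neg h4, mul_zero]
    · rw [if_neg h3, zero_mul]

theorem hcomp_hom (U : Finset (Option (Fin e) × Fin k)) {q : MvPolynomial (V n e) K}
    {m : Option (Fin e) × Fin k → ℕ} (h : IsWeightedHomogeneous (hw ι) q m) :
    hcomp ι U q = q ∨ hcomp ι U q = 0 := by
  by_cases hm : m = hind U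
  · left
    subst hm
    exact h.weightedHomogeneousComponent_same
  · right
    exact h.weightedHomogeneousComponent_ne _ (Ne.symm hm)

/-! ### The torus -/

/-- the coordinates of the torus element -/
def htor (S : Fin k → Kˣ) (T : Fin e → Fin k → Kˣ) : Option (Fin e) × Fin k → K
  | (none, a) => (S a : K)
  | (some s, a) => (T s a : K)

theorem hext (S : Fin k → Kˣ) (i : Fin n) :
    ((Function.extend ι S 1 i : Kˣ) : K) = ∏ a, (S a : K) ^ (if i = ι a then 1 else 0) := by
  by_cases h : ∃ a, ι a = i
  · obtain ⟨a, rfl⟩ := h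
    rw [ι.injective.extend_apply, Finset.prod_eq_single a]
    · simp
    · intro b _ hb
      rw [if_neg fun h => hb (ι.injective h).symm, pow_zero]
    · intro h
      exact absurd (Finset.mem_univ _) h
  · rw [Function.extend_apply' _ _ _ h]
    symm
    rw [Finset.prod_eq_one]
    · rfl
    · intro a _
      rw [if_neg fun h1 => h ⟨a, h1.symm⟩, pow_zero]

theorem blk_eq (S : Fin k → Kˣ) (T : Fin e → Fin k → Kˣ) (x : V n e) :
    blk ι S T x = ∏ u, htor S T u ^ hw ι x u := by
  rw [blk, cof, Units.val_mul, Units.coe_prod, hext]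
  rw [Fintype.prod_prod_type, Fintype.prod_option]
  congr 1
  refine Finset.prod_congr rfl fun s _ => ?_
  rw [hext]
  rfl

theorem scale_hcomp (S : Fin k → Kˣ) (T : Fin e → Fin k → Kˣ)
    (U : Finset (Option (Fin e) × Fin k)) (q : MvPolynomial (V n e) K) :
    scale (blk ι S T) (hcomp ι U q) = C (∏ u, htor S T u ^ hind U u) * hcomp ι U q := by
  rw [hcomp, weightedHomogeneousComponent_apply, map_sum, Finset.mul_sum]
  refine Finset.sum_congr rfl fun d hd => ?_
  have hd' : Finsupp.weight (hw ι) d = hind U := (Finset.mem_filter.1 hd).2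
  rw [scale, aeval_monomial]
  have h1 : (d.prod fun i j => (C (blk ι S T i) * X i : MvPolynomial (V n e) K) ^ j) =
      C (d.prod fun i j => blk ι S T i ^ j) * monomial d 1 := by
    rw [Finsupp.prod, Finsupp.prod, map_prod, ← prod_X_pow_eq_monomial, ← Finset.prod_mul_distrib]
    refine Finset.prod_congr rfl fun i _ => ?_
    rw [mul_pow, map_pow]
  have h2 : (d.prod fun i j => blk ι S T i ^ j) = ∏ u, htor S T u ^ hind U u := by
    rw [Finsupp.prod]
    have h3 : ∀ i ∈ d.support, blk ι S T i ^ d i = ∏ u, htor S T u ^ (d i * hw ι i u) := by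
      intro i _
      rw [blk_eq, ← Finset.prod_pow]
      refine Finset.prod_congr rfl fun u _ => ?_
      rw [← pow_mul, mul_comm]
    rw [Finset.prod_congr rfl h3, Finset.prod_comm]
    refine Finset.prod_congr rfl fun u _ => ?_
    rw [Finset.prod_pow_eq_pow_sum]
    congr 1
    rw [← hd', Finsupp.weight_apply, Finsupp.sum, Finset.sum_apply]
    refine Finset.sum_congr rfl fun i _ => ?_
    rw [Pi.smul_apply, smul_eq_mul]
  rw [h1, h2, algebraMap_eq]
  have h4 : (monomial d (coeff d q) : MvPolynomial (V n e) K) = C (coeff d q) * monomial d 1 := by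
    rw [C_mul_monomial, mul_one]
  rw [h4]
  ring

end hom

theorem t_HOM : S_HOM := by
  intro K _ n e k ι a G p hp ha
  set N := 2 ^ ((e + 1) * k) with hN
  have hcard : Fintype.card (Finset (Option (Fin e) × Fin k)) = N := by
    rw [Fintype.card_finset, Fintype.card_prod, Fintype.card_option, Fintype.card_fin,
      Fintype.card_fin]
  have hN0 : 0 < N := by positivity
  let E : Fin N ≃ Finset (Option (Fin e) × Fin k) := (Fintype.equivFinOfCardEq hcard).symm
  let p' : ℕ → MvPolynomial (V n e) K := fun t => hcomp ι (E ⟨t % N, Nat.mod_lt _ hN0⟩) (p (t / N))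
  have hp' : ∀ (j : ℕ) (U : Finset (Option (Fin e) × Fin k)),
      p' (j * N + (E.symm U : ℕ)) = hcomp ι U (p j) := by
    intro j U
    have h1 : (j * N + (E.symm U : ℕ)) % N = (E.symm U : ℕ) := by
      rw [Nat.mul_add_mod_of_lt (E.symm U).2]
    have h2 : (j * N + (E.symm U : ℕ)) / N = j := by
      rw [mul_comm, Nat.mul_add_div hN0, Nat.div_eq_of_lt (E.symm U).2, add_zero]
    show hcomp ι (E ⟨(j * N + (E.symm U : ℕ)) % N, _⟩) (p ((j * N + (E.symm U : ℕ)) / N)) = _
    rw [h2]
    congr 2
    have h3 : (⟨(j * N + (E.symm U : ℕ)) % N, Nat.mod_lt _ hN0⟩ : Fin N) = E.symm U := Fin.ext h1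
    rw [h3, E.apply_symm_apply]
  have hmono : ∀ {s t : ℕ}, s ≤ t → Earlier p' s ≤ Earlier p' t := by
    intro s t hst
    apply Submodule.span_mono
    apply Set.union_subset_union_right
    apply Set.image_mono
    exact Set.Iio_subset_Iio hst
  have hA : ∀ (j : ℕ) (q : MvPolynomial (V n e) K), q ∈ Earlier p j → ∀ U,
      hcomp ι U q ∈ Earlier p' (j * N) := by
    intro j q hq U
    rw [Earlier] at hq
    induction hq using Submodule.span_induction with
    | mem x hx =>
      rcases hx with (hx | ⟨y, rfl⟩) | ⟨i, hi, rfl⟩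
      · rw [Set.mem_singleton_iff.1 hx]
        rcases hcomp_hom ι U (isWeightedHomogeneous_one K (hw ι)) with h | h
        · rw [h]
          exact Submodule.subset_span (Or.inl (Or.inl rfl))
        · rw [h]
          exact Submodule.zero_mem _
      · rcases hcomp_hom ι U (isWeightedHomogeneous_X K (hw ι) y) with h | h
        · rw [h]
          exact Submodule.subset_span (Or.inl (Or.inr ⟨y, rfl⟩))
        · rw [h]
          exact Submodule.zero_mem _
      · rw [← hp']
        refine Submodule.subset_span (Or.inr ⟨_, ?_, rfl⟩)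
        have h1 : i < j := hi
        have h2 := (E.symm U).2
        have h3 : (i + 1) * N ≤ j * N := Nat.mul_le_mul_right _ h1
        show i * N + (E.symm U : ℕ) < j * N
        have h4 : (i + 1) * N = i * N + N := by ring
        omega
    | zero => rw [map_zero]; exact Submodule.zero_mem _
    | add x y _ _ hx hy => rw [map_add]; exact Submodule.add_mem _ hx hy
    | smul c x _ hx => rw [map_smul]; exact Submodule.smul_mem _ _ hx
  refine ⟨p', fun S T t ht => ⟨⟨_, scale_hcomp ι S T _ _⟩, Or.inl ?_⟩, ?_⟩
  · have hj : t / N < G := Nat.div_lt_of_lt_mul (by rw [mul_comm]; exact ht)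
    have h1 : Earlier p' (t / N * N) ≤ Earlier p' t := hmono (Nat.div_mul_le_self t N)
    have h2 : ∀ q ∈ Earlier p (t / N) * Earlier p (t / N), ∀ U,
        hcomp ι U q ∈ Earlier p' t * Earlier p' t := by
      intro q hq U
      induction hq using Submodule.mul_induction_on' with
      | mem_mul_mem x hx y hy =>
        rw [hcomp_mul]
        exact Submodule.sum_mem _ fun U' _ => Submodule.mul_mem_mul (h1 (hA _ _ hx _))
          (h1 (hA _ _ hy _))
      | add x _ y _ hx hy => rw [map_add]; exact Submodule.add_mem _ hx hy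
    exact h2 _ (hp _ hj) _
  · have h1 := hA G _ ha univ
    have h2 : hcomp ι univ (form a) = form a := by
      apply IsWeightedHomogeneous.weightedHomogeneousComponent_same
      rw [form]
      refine IsWeightedHomogeneous.sum _ _ _ fun σ _ => ?_
      apply isWeightedHomogeneous_monomial
      rw [mon, map_sum]
      funext u
      rw [Finset.sum_apply]
      simp only [Finsupp.weight_single, one_smul, hind, Finset.mem_univ, if_true]
      rcases u with ⟨_ | s, b⟩
      · rw [Finset.sum_eq_single (ι b)]
        · simp [hw]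
        · intro i _ hi
          simp [hw, hi]
        · intro h
          exact absurd (Finset.mem_univ _) h
      · rw [Finset.sum_eq_single ((σ s).symm (ι b))]
        · simp [hw]
        · intro i _ hi
          have h3 : σ s i ≠ ι b := by
            intro h4
            apply hi
            rw [← h4, Equiv.symm_apply_apply]
          simp [hw, h3]
        · intro h
          exact absurd (Finset.mem_univ _) h
    rwa [h2] at h1

end Pool.Agent.Helper1x.EC
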