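import Pool.Agent.Helper1x.EC.Def

/-!
# Numerics for the project EC: many unmatched labels
-/

set_option autoImplicit false

namespace Pool.Agent.Helper1x.EC

namespace Num1P

open Nat

theorem fact_mul_le {a b : ℕ} (ha : 1 ≤ a) (hb : 1 ≤ b) : a.factorial * b.factorial ≤ (a + b - 1).factorial := by
  obtain ⟨b, rfl⟩ : ∃ c, b = c + 1 := ⟨b - 1, by omega⟩
  clear hb
  induction b with
  | zero => simp
  | succ b ih =>
    have e1 : a + (b + 1 + 1) - 1 = (a + (b + 1) - 1) + 1 := by omega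
    rw [e1, Nat.factorial_succ (b + 1), Nat.factorial_succ (a + (b + 1) - 1)]
    calc a.factorial * ((b + 1 + 1) * (b + 1).factorial)
        = (b + 1 + 1) * (a.factorial * (b + 1).factorial) := by ring
      _ ≤ (a + (b + 1) - 1 + 1) * (a + (b + 1) - 1).factorial :=
        Nat.mul_le_mul (by omega) ih

end Num1P

open Num1P in
theorem t_NUM1 : S_NUM1 16 := by
  intro n e z hn he hz hzn
  obtain ⟨a, ha, haz⟩ : ∃ a, 1 ≤ a ∧ n + 1 = a + z := ⟨n - z + 1, by omega, by omega⟩
  have e1 : n - z + 1 = a := by omega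
  rw [e1]
  -- the falling product
  obtain ⟨P, hP⟩ : ∃ P, n.factorial = a.factorial * P :=
    Nat.factorial_dvd_factorial (by omega : a ≤ n)
  have hapos : 0 < a.factorial := Nat.factorial_pos a
  have hz1 : 1 ≤ z := by omega
  have hzP : z.factorial ≤ P := by
    have h1 := fact_mul_le ha hz1
    have h2 : a + z - 1 = n := by omega
    rw [h2, hP] at h1
    exact Nat.le_of_mul_le_mul_left h1 hapos
  set q := n / 4 with hq
  have hPq : (n + 1 - q) ^ q ≤ P := by
    have h1 : (n + 1 - q) ^ q ≤ n.descFactorial q := Nat.pow_sub_le_descFactorial n q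
    have h2 : (n - q).factorial * n.descFactorial q = n.factorial :=
      Nat.factorial_mul_descFactorial (by omega)
    have h3 : a.factorial ≤ (n - q).factorial := Nat.factorial_le (by omega)
    have h4 : a.factorial * n.descFactorial q ≤ a.factorial * P := by
      rw [← hP, ← h2]
      exact Nat.mul_le_mul_right _ h3
    exact h1.trans (Nat.le_of_mul_le_mul_left h4 hapos)
  have hP4 : 2 ^ (2 * n + 8) ≤ P ^ 4 := by
    have h1 : 13 ^ q ≤ P := (Nat.pow_le_pow_left (by omega) q).trans hPq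
    calc 2 ^ (2 * n + 8) ≤ 2 ^ (14 * q) := Nat.pow_le_pow_right (by norm_num) (by omega)
      _ = (2 ^ 14) ^ q := by rw [pow_mul]
      _ ≤ (13 ^ 4) ^ q := Nat.pow_le_pow_left (by norm_num) q
      _ = (13 ^ q) ^ 4 := by rw [← pow_mul, ← pow_mul, mul_comm]
      _ ≤ P ^ 4 := Nat.pow_le_pow_left h1 4
  have hmain : (4 * P) ^ 4 * 2 ^ (e * n) ≤ P ^ (4 * e) := by
    obtain ⟨f, rfl⟩ : ∃ f, e = f + 2 := ⟨e - 2, by omega⟩
    have h2 : 2 ^ ((f + 2) * n + 8) ≤ P ^ (4 * (f + 1)) := by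
      calc 2 ^ ((f + 2) * n + 8) ≤ 2 ^ ((2 * n + 8) * (f + 1)) := by
            apply Nat.pow_le_pow_right (by norm_num)
            nlinarith [Nat.zero_le (f * n)]
        _ = (2 ^ (2 * n + 8)) ^ (f + 1) := by rw [pow_mul]
        _ ≤ (P ^ 4) ^ (f + 1) := Nat.pow_le_pow_left hP4 _
        _ = P ^ (4 * (f + 1)) := by rw [pow_mul]
    calc (4 * P) ^ 4 * 2 ^ ((f + 2) * n) = P ^ 4 * 2 ^ ((f + 2) * n + 8) := by
          rw [mul_pow, pow_add 2 _ 8]
          ring
      _ ≤ P ^ 4 * P ^ (4 * (f + 1)) := Nat.mul_le_mul_left _ h2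
      _ = P ^ (4 * (f + 2)) := by
          rw [← pow_add]
          congr 1
          ring
  calc (4 * (z.factorial * a.factorial ^ e)) ^ 4 * 2 ^ (e * n)
      = (a.factorial ^ e) ^ 4 * ((4 * z.factorial) ^ 4 * 2 ^ (e * n)) := by ring
    _ ≤ (a.factorial ^ e) ^ 4 * ((4 * P) ^ 4 * 2 ^ (e * n)) := by
        gcongr
    _ ≤ (a.factorial ^ e) ^ 4 * P ^ (4 * e) := Nat.mul_le_mul_left _ hmain
    _ = (n.factorial ^ e) ^ 4 := by
        rw [hP]
        ring

end Pool.Agent.Helper1x.EC
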