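import Pool.Agent.Helper1x.EC.Def

/-!
# Numerics for the project EC: few unmatched labels
-/

set_option autoImplicit false

namespace Pool.Agent.Helper1x.EC

namespace Num2P

open Nat

theorem choose_step (a : ℕ) : (3 * (a + 1)).choose (a + 1) * ((a + 1) * ((2 * a + 2) * (2 * a + 1))) =
    (3 * a).choose a * ((3 * a + 3) * ((3 * a + 2) * (3 * a + 1))) := by
  have h1 := Nat.choose_mul_factorial_mul_factorial (by omega : a ≤ 3 * a)
  have h2 := Nat.choose_mul_factorial_mul_factorial (by omega : a + 1 ≤ 3 * (a + 1))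
  have e1 : 3 * a - a = 2 * a := by omega
  have e2 : 3 * (a + 1) - (a + 1) = 2 * a + 1 + 1 := by omega
  have e3 : 3 * (a + 1) = 3 * a + 1 + 1 + 1 := by ring
  rw [e1] at h1
  rw [e2, Nat.factorial_succ a, Nat.factorial_succ (2 * a + 1), Nat.factorial_succ (2 * a)] at h2
  have e4 : (3 * (a + 1)).factorial = (3 * a + 3) * ((3 * a + 2) * ((3 * a + 1) * (3 * a).factorial)) := by
    rw [e3, Nat.factorial_succ (3 * a + 1 + 1), Nat.factorial_succ (3 * a + 1), Nat.factorial_succ (3 * a)]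
  rw [e4, ← h1] at h2
  have hpos : 0 < a.factorial * (2 * a).factorial :=
    Nat.mul_pos (Nat.factorial_pos _) (Nat.factorial_pos _)
  apply Nat.eq_of_mul_eq_mul_right hpos
  calc _ = (3 * (a + 1)).choose (a + 1) * ((a + 1) * a.factorial) *
        ((2 * a + 1 + 1) * ((2 * a + 1) * (2 * a).factorial)) := by ring
    _ = _ := by rw [h2]; ring

theorem choose_ge (a : ℕ) : 3 * 5 ^ a ≤ (3 * (a + 1)).choose (a + 1) := by
  induction a with
  | zero => decide
  | succ a ih =>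
    have h1 := choose_step (a + 1)
    set C := (3 * (a + 1)).choose (a + 1) with hC
    set C' := (3 * (a + 1 + 1)).choose (a + 1 + 1) with hC'
    have h2 : 5 * ((a + 1 + 1) * ((2 * (a + 1) + 2) * (2 * (a + 1) + 1))) ≤
        (3 * (a + 1) + 3) * ((3 * (a + 1) + 2) * (3 * (a + 1) + 1)) := by
      nlinarith [Nat.zero_le (a * a), Nat.zero_le (a * a * a)]
    have h3 : 5 * C ≤ C' := by
      have hpos : 0 < (a + 1 + 1) * ((2 * (a + 1) + 2) * (2 * (a + 1) + 1)) := by positivity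
      apply Nat.le_of_mul_le_mul_right _ hpos
      rw [h1]
      calc 5 * C * ((a + 1 + 1) * ((2 * (a + 1) + 2) * (2 * (a + 1) + 1)))
          = C * (5 * ((a + 1 + 1) * ((2 * (a + 1) + 2) * (2 * (a + 1) + 1)))) := by ring
        _ ≤ _ := Nat.mul_le_mul_left _ h2
    calc 3 * 5 ^ (a + 1) = 5 * (3 * 5 ^ a) := by ring
      _ ≤ 5 * C := Nat.mul_le_mul_left _ ih
      _ ≤ C' := h3

theorem choose_sq {n : ℕ} (hn : 16 ≤ n) : 4 * 2 ^ n ≤ (n.choose (n / 3)) ^ 2 := by
  obtain ⟨a, ha, hr⟩ : ∃ a, 4 ≤ a ∧ n / 3 = a + 1 := ⟨n / 3 - 1, by omega, by omega⟩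
  have h1 : (3 * (a + 1)).choose (a + 1) ≤ n.choose (n / 3) := by
    rw [hr]
    exact Nat.choose_le_choose _ (by omega)
  have h2 := (choose_ge a).trans h1
  obtain ⟨b, rfl⟩ : ∃ b, a = b + 4 := ⟨a - 4, by omega⟩
  calc 4 * 2 ^ n ≤ 4 * 2 ^ (3 * b + 17) :=
        Nat.mul_le_mul_left _ (Nat.pow_le_pow_right (by norm_num) (by omega))
    _ = 524288 * 8 ^ b := by
        rw [pow_add, pow_mul]
        norm_num
        ring
    _ ≤ 3515625 * 25 ^ b := Nat.mul_le_mul (by norm_num) (Nat.pow_le_pow_left (by norm_num) b)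
    _ = (3 * 5 ^ (b + 4)) ^ 2 := by
        rw [mul_pow, ← pow_mul, mul_comm (b + 4) 2, pow_mul, pow_add]
        norm_num
        ring
    _ ≤ _ := Nat.pow_le_pow_left h2 2

end Num2P

open Num2P in
theorem t_NUM2 : S_NUM2 16 := by
  intro n e t hn he ht
  have hs := choose_sq hn
  set s := n.choose (n / 3) with hsdef
  set X := s ^ e with hX
  have hX2 : 16 * 2 ^ (e * n) ≤ X ^ 2 := by
    calc 16 * 2 ^ (e * n) ≤ 4 ^ e * 2 ^ (e * n) :=
          Nat.mul_le_mul_right _ ((by norm_num : 16 = 4 ^ 2) ▸ Nat.pow_le_pow_right (by norm_num) he)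
      _ = (4 * 2 ^ n) ^ e := by rw [mul_pow, ← pow_mul, mul_comm e n]
      _ ≤ (s ^ 2) ^ e := Nat.pow_le_pow_left hs e
      _ = X ^ 2 := by rw [hX, ← pow_mul, ← pow_mul, mul_comm]
  have hXpos : 0 < X := by
    rcases Nat.eq_zero_or_pos X with h | h
    · rw [h] at hX2
      have : 0 < 16 * 2 ^ (e * n) := by positivity
      omega
    · exact h
  have h1 : 4 * t ^ 2 < X := by
    apply lt_of_pow_lt_pow_left₀ 2 (Nat.zero_le _)
    calc (4 * t ^ 2) ^ 2 = 16 * t ^ 4 := by ring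
      _ < 16 * 2 ^ (e * n) := Nat.mul_lt_mul_of_pos_left ht (by norm_num)
      _ ≤ X ^ 2 := hX2
  have h2 : 4 * t < X := by
    refine lt_of_le_of_lt ?_ h1
    rcases Nat.eq_zero_or_pos t with h | h
    · simp [h]
    · nlinarith
  have h3 : 4 * (t * 4 ^ (n / 4)) < X := by
    apply lt_of_pow_lt_pow_left₀ 4 (Nat.zero_le _)
    calc (4 * (t * 4 ^ (n / 4))) ^ 4 = 256 * (t ^ 4 * 4 ^ (4 * (n / 4))) := by
          rw [mul_pow, mul_pow, ← pow_mul, mul_comm (n / 4) 4]
          norm_num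
      _ ≤ 256 * (t ^ 4 * 4 ^ n) := by
          gcongr
          · norm_num
          · omega
      _ < 256 * (2 ^ (e * n) * 4 ^ n) := by
          gcongr
      _ ≤ 256 * (2 ^ (e * n) * 2 ^ (e * n)) := by
          have h4 : 4 ^ n ≤ 2 ^ (e * n) := by
            calc 4 ^ n = 2 ^ (2 * n) := by rw [pow_mul]; norm_num
              _ ≤ 2 ^ (e * n) := Nat.pow_le_pow_right (by norm_num) (Nat.mul_le_mul_right _ he)
          exact Nat.mul_le_mul_left _ (Nat.mul_le_mul_left _ h4)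
      _ = (16 * 2 ^ (e * n)) ^ 2 := by ring
      _ ≤ (X ^ 2) ^ 2 := Nat.pow_le_pow_left hX2 2
      _ = X ^ 4 := by ring
  calc 4 * (t + t ^ 2 + t * 4 ^ (n / 4)) = 4 * t + 4 * t ^ 2 + 4 * (t * 4 ^ (n / 4)) := by ring
    _ < X + X + X := by omega
    _ = 3 * X := by ring

end Pool.Agent.Helper1x.EC
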