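import Pool.Agent.Helper1x.EC.Gates
import Pool.Agent.Helper1x.EC.Num1
import Pool.Agent.Helper1x.EC.Num2
import Pool.Agent.Helper1x.EC.Cnt2

/-!
# The lower bound
-/

set_option autoImplicit false

namespace Pool.Agent.Helper1x.EC

open Finset Pool.Agent.Helper1x.EP

/-- the final estimate -/
theorem arith {n e R s G F C lam N1 N2 : ℕ} (hs : G ≤ s) (hlam : lam ≤ s + s ^ 2 + s * 4 ^ (n / 4)) (hF : 0 < F)
    (hC : 0 < C) (h1 : N1 * C ≤ lam * F) (h2 : 4 * (R * s) * N2 ≤ G * F) (hN2 : s = 0 → N2 = 0)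
    (hnum : 4 * (R * s + (R * s) ^ 2 + R * s * 4 ^ (n / 4)) < 3 * C) : R * (N1 + N2) < F := by
  rcases Nat.eq_zero_or_pos R with hR | hR
  · rw [hR, zero_mul]
    exact hF
  have h3 : 4 * R * N1 * C < 3 * F * C := by
    have h4 : R * lam ≤ R * s + (R * s) ^ 2 + R * s * 4 ^ (n / 4) := by
      have h5 : R * s ^ 2 ≤ (R * s) ^ 2 := by
        rw [mul_pow]
        exact Nat.mul_le_mul_right _ (Nat.le_self_pow (by norm_num) R)
      calc R * lam ≤ R * (s + s ^ 2 + s * 4 ^ (n / 4)) := Nat.mul_le_mul_left _ hlam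
        _ = R * s + R * s ^ 2 + R * s * 4 ^ (n / 4) := by ring
        _ ≤ _ := by omega
    calc 4 * R * N1 * C = 4 * R * (N1 * C) := by ring
      _ ≤ 4 * R * (lam * F) := Nat.mul_le_mul_left _ h1
      _ = 4 * (R * lam) * F := by ring
      _ ≤ 4 * (R * s + (R * s) ^ 2 + R * s * 4 ^ (n / 4)) * F := Nat.mul_le_mul_right _ (Nat.mul_le_mul_left _ h4)
      _ < 3 * C * F := Nat.mul_lt_mul_of_pos_right hnum hF
      _ = 3 * F * C := by ring
  have h4 : 4 * R * N1 < 3 * F := lt_of_mul_lt_mul_right h3 (Nat.zero_le C)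
  have h5 : 4 * R * N2 ≤ F := by
    rcases Nat.eq_zero_or_pos s with h0 | h0
    · rw [hN2 h0, mul_zero]
      exact Nat.zero_le _
    · refine Nat.le_of_mul_le_mul_right ?_ h0
      calc 4 * R * N2 * s = 4 * (R * s) * N2 := by ring
        _ ≤ G * F := h2
        _ ≤ s * F := Nat.mul_le_mul_right _ hs
        _ = F * s := mul_comm _ _
  have h6 : 4 * (R * (N1 + N2)) < 4 * F := by
    calc 4 * (R * (N1 + N2)) = 4 * R * N1 + 4 * R * N2 := by ring
      _ < 3 * F + F := by omega
      _ = 4 * F := by ring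
  omega

theorem sum_sq (G : ℕ) (m : ℕ → ℕ) : G + ∑ k ∈ range G, m k * m k ≤
    (∑ k ∈ range G, (m k + 1)) + (∑ k ∈ range G, (m k + 1)) ^ 2 := by
  have h1 : G ≤ ∑ k ∈ range G, (m k + 1) := by
    rw [Finset.sum_add_distrib, Finset.sum_const, card_range, smul_eq_mul, mul_one]
    exact Nat.le_add_left _ _
  have h2 : ∑ k ∈ range G, m k * m k ≤ (∑ k ∈ range G, (m k + 1)) ^ 2 := by
    rw [sq, Finset.sum_mul]
    refine Finset.sum_le_sum fun k hk => Nat.mul_le_mul (Nat.le_succ _) ?_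
    exact (Nat.le_succ _).trans (Finset.single_le_sum (f := fun k => m k + 1) (fun _ _ => Nat.zero_le _) hk)
  omega

variable {n e : ℕ} {K : Type*} [Field K]

open Classical in
/-- The lower bound. -/
theorem lower (hn : 16 ≤ n) (he : 2 ≤ e) {S : Fin n → Kˣ} {T : Fin e → Fin n → Kˣ} (hgen : Generic S T) {G : ℕ}
    {p : ℕ → MvPolynomial (V n e) K} {m : ℕ → ℕ} (hc : Circuit (fun x => (cof S T x : K)) G p m)
    {f : MvPolynomial (V n e) K} (hf : f ∈ Earlier p G) {R : ℕ}
    (hR : n.factorial ^ e ≤ R * (univ.filter fun σ : Fin e → Equiv.Perm (Fin n) =>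
      MvPolynomial.coeff (mon σ univ) f ≠ 0).card) :
    2 ^ (e * n) ≤ (R * ∑ k ∈ range G, (m k + 1)) ^ 4 := by
  by_contra hcon
  push Not at hcon
  set s : ℕ := ∑ k ∈ range G, (m k + 1) with hs
  have hGs : G ≤ s := by
    rw [hs, Finset.sum_add_distrib, Finset.sum_const, card_range, smul_eq_mul, mul_one]
    exact Nat.le_add_left _ _
  choose l b μ hstr using fun k => circuit_str (L := AlgebraicClosure K) hc k
  set S' : Fin n → (AlgebraicClosure K)ˣ := fun i => ju K (AlgebraicClosure K) (S i) with hS'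
  set T' : Fin e → Fin n → (AlgebraicClosure K)ˣ := fun s j => ju K (AlgebraicClosure K) (T s j) with hT'
  have hgen' : Generic S' T' := hgen.map _ ju_injective
  set Z : ∀ k, Finset (Fin (m k)) := fun k => univ.filter fun v => b k v ≠ μ k v with hZ
  set z0 := n / 4 with hz0
  set a := n / 3 with ha
  have hdesc := descent hgen' (G := G) (m := m) (l := l) (b := b) (μ := μ) (Z := Z) (z0 := z0) (a := a) (by omega)
    (by omega) (Q := Occ p) (fun k hk σ A h => (hstr k hk).1 σ A h)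
    (fun k hk z hz z' hz' => (hstr k hk).2.1 z z' (mem_filter.1 hz).2 (mem_filter.1 hz').2)
    (fun k hk v hv => by
      by_contra h
      exact hv (mem_filter.2 ⟨mem_univ _, h⟩))
    (fun k hk => (hstr k hk).2.2)
  set F := n.factorial ^ e with hF
  have hFpos : 0 < F := pow_pos (Nat.factorial_pos n) e
  set cutset : (AlgebraicClosure K)ˣ → Finset (Fin e → Equiv.Perm (Fin n)) := fun h => univ.filter fun σ =>
    ∃ A', a ≤ A'.card ∧ A'.card ≤ n - a ∧ wts S' T' σ A' = h with hcut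
  set walkset : ℕ → Finset (Fin e → Equiv.Perm (Fin n)) := fun k => univ.filter fun σ =>
    Walks S' T' (b k) (μ k) (Z k) σ with hwalk
  set big : Finset ℕ := (range G).filter fun k => z0 < (Z k).card ∧ (Z k).card ≤ n with hbig
  have hcover : (univ.filter fun σ : Fin e → Equiv.Perm (Fin n) => MvPolynomial.coeff (mon σ univ) f ≠ 0) ⊆
      (labels G m l b μ Z z0).biUnion cutset ∪ big.biUnion walkset := by
    intro σ hσ
    have h1 := part_of_earlier hf (mem_filter.1 hσ).2
    rcases h1 with h1 | ⟨k, hk, h1⟩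
    · rw [Finset.card_univ, Fintype.card_fin] at h1
      omega
    · rw [mem_union]
      rcases hdesc k hk σ univ h1 (by rw [Finset.card_univ, Fintype.card_fin]; omega) with
        ⟨A', h2, h3, h4⟩ | ⟨j, hj, h2, h3⟩
      · exact Or.inl (mem_biUnion.2 ⟨_, h4, mem_filter.2 ⟨mem_univ _, A', h2, h3, rfl⟩⟩)
      · exact Or.inr (mem_biUnion.2 ⟨j, mem_filter.2 ⟨mem_range.2 hj, h2, walks_le h3⟩,
          mem_filter.2 ⟨mem_univ _, h3⟩⟩)
  set N1 := ∑ h ∈ labels G m l b μ Z z0, (cutset h).card with hN1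
  set N2 := ∑ k ∈ big, (walkset k).card with hN2
  have hN : (univ.filter fun σ : Fin e → Equiv.Perm (Fin n) => MvPolynomial.coeff (mon σ univ) f ≠ 0).card ≤
      N1 + N2 :=
    (Finset.card_le_card hcover).trans ((Finset.card_union_le _ _).trans
      (Nat.add_le_add Finset.card_biUnion_le Finset.card_biUnion_le))
  have hlam : (labels G m l b μ Z z0).card ≤ s + s ^ 2 + s * 4 ^ (n / 4) := by
    refine (card_labels G m l b μ Z z0).trans (Nat.add_le_add (sum_sq G m) ?_)
    exact Nat.mul_le_mul_right _ hGs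
  have h1 : N1 * n.choose a ^ e ≤ (labels G m l b μ Z z0).card * F := by
    rw [hN1, Finset.sum_mul, ← smul_eq_mul (a := (labels G m l b μ Z z0).card)]
    exact Finset.sum_le_card_nsmul _ _ _ fun h _ => card_cut hgen' (by omega) (by omega) h
  have h2 : ∀ k ∈ big, 4 * (R * s) * (walkset k).card ≤ F := by
    intro k hk
    obtain ⟨hk1, hk2, hk3⟩ := mem_filter.1 hk
    have h3 := card_walks t_CNT2 hgen' (b := b k) (μ := μ k) (Z := Z k) (by omega)
    have h4 := t_NUM1 n e (Z k).card hn he hk2 hk3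
    refine le_of_pow_le_pow_left₀ (n := 4) (by norm_num) (Nat.zero_le _) ?_
    calc (4 * (R * s) * (walkset k).card) ^ 4 = (4 * (walkset k).card) ^ 4 * (R * s) ^ 4 := by ring
      _ ≤ (4 * ((Z k).card.factorial * ((n - (Z k).card + 1).factorial) ^ e)) ^ 4 * 2 ^ (e * n) :=
        Nat.mul_le_mul (Nat.pow_le_pow_left (Nat.mul_le_mul_left _ h3) _) hcon.le
      _ ≤ F ^ 4 := h4
  have h3 : 4 * (R * s) * N2 ≤ G * F := by
    rw [hN2, Finset.mul_sum]
    refine (Finset.sum_le_card_nsmul _ _ _ h2).trans ?_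
    rw [smul_eq_mul]
    refine Nat.mul_le_mul_right _ ((Finset.card_filter_le _ _).trans ?_)
    rw [card_range]
  have h4 : s = 0 → N2 = 0 := by
    intro h0
    have h5 : G = 0 := by omega
    rw [hN2, hbig, h5]
    simp
  have h5 := arith (n := n) (e := e) hGs hlam hFpos (pow_pos (Nat.choose_pos (by omega : a ≤ n)) e) h1 h3 h4
    (t_NUM2 n e (R * s) hn he hcon)
  have h6 := hR.trans (Nat.mul_le_mul_left R hN)
  omega

end Pool.Agent.Helper1x.EC
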