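import Pool.Agent.Helper1x.EC.Def2

/-!
# Piece SUB of project EC: restriction of a circuit to a block
-/

set_option autoImplicit false

namespace Pool.Agent.Helper1x.EC

open Finset MvPolynomial
open scoped Classical

section sub

variable {n e k : ℕ} {K : Type} [Field K] (ι : Fin k ↪ Fin n)

/-- the embedding of the variables -/
def sEmb (y : V k e) : V n e := (ι y.1, fun s => ι (y.2 s))

theorem sEmb_inj : Function.Injective (sEmb (e := e) ι) := by
  rintro ⟨a, c⟩ ⟨a', c'⟩ h
  rw [sEmb, sEmb, Prod.mk.injEq] at h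
  refine Prod.ext (ι.injective h.1) ?_
  funext s
  exact ι.injective (congrFun h.2 s)

/-- the values of the substitution -/
noncomputable def sVal (x : V n e) : MvPolynomial (V k e) K :=
  if h : ∃ y : V k e, sEmb ι y = x then X h.choose
  else if x.1 ∉ Set.range ι ∧ ∀ s, x.2 s = x.1 then 1 else 0

theorem sVal_emb (y : V k e) : (sVal ι (sEmb ι y) : MvPolynomial (V k e) K) = X y := by
  have h : ∃ y' : V k e, sEmb ι y' = sEmb ι y := ⟨y, rfl⟩
  rw [sVal, dif_pos h]
  congr 1
  exact sEmb_inj ι h.choose_spec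

theorem sVal_one {x : V n e} (h : x.1 ∉ Set.range ι) (h' : ∀ s, x.2 s = x.1) :
    (sVal ι x : MvPolynomial (V k e) K) = 1 := by
  rw [sVal, dif_neg, if_pos ⟨h, h'⟩]
  rintro ⟨y, rfl⟩
  exact h ⟨y.1, rfl⟩

theorem sVal_zero {x : V n e} (h : ¬ ∃ y : V k e, sEmb ι y = x)
    (h' : ¬ (x.1 ∉ Set.range ι ∧ ∀ s, x.2 s = x.1)) :
    (sVal ι x : MvPolynomial (V k e) K) = 0 := by
  rw [sVal, dif_neg h, if_neg h']

theorem sVal_cases (x : V n e) : (∃ y : V k e, sEmb ι y = x) ∨
    (x.1 ∉ Set.range ι ∧ ∀ s, x.2 s = x.1) ∨ ((sVal ι x : MvPolynomial (V k e) K) = 0) := by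
  by_cases h : ∃ y : V k e, sEmb ι y = x
  · exact Or.inl h
  · by_cases h' : x.1 ∉ Set.range ι ∧ ∀ s, x.2 s = x.1
    · exact Or.inr (Or.inl h')
    · exact Or.inr (Or.inr (sVal_zero ι h h'))

/-- the substitution -/
noncomputable def sHom : MvPolynomial (V n e) K →ₐ[K] MvPolynomial (V k e) K := aeval (sVal ι)

theorem sHom_X (x : V n e) : (sHom ι (X x) : MvPolynomial (V k e) K) = sVal ι x := by
  rw [sHom, aeval_X]

theorem sHom_C (a : K) : (sHom (e := e) ι (C a) : MvPolynomial (V k e) K) = C a :=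
  (sHom (e := e) ι).commutes a

theorem blk_emb (S : Fin k → Kˣ) (T : Fin e → Fin k → Kˣ) (y : V k e) :
    blk ι S T (sEmb ι y) = (cof S T y : K) := by
  rw [blk]
  congr 1
  rw [cof, cof]
  simp only [sEmb]
  rw [ι.injective.extend_apply]
  congr 1
  refine Finset.prod_congr rfl fun s _ => ?_
  rw [ι.injective.extend_apply]

theorem blk_one (S : Fin k → Kˣ) (T : Fin e → Fin k → Kˣ) {x : V n e} (h : x.1 ∉ Set.range ι)
    (h' : ∀ s, x.2 s = x.1) : blk ι S T x = (1 : K) := by
  rw [blk, cof]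
  have h1 : ¬ ∃ a, ι a = x.1 := h
  rw [Function.extend_apply' _ _ _ h1]
  have h2 : ∀ s ∈ (univ : Finset (Fin e)), Function.extend ι (T s) 1 (x.2 s) = 1 := by
    intro s _
    rw [h' s, Function.extend_apply' _ _ _ h1]
    rfl
  rw [Finset.prod_congr rfl h2, Finset.prod_const_one, mul_one]
  rfl

theorem scale_sHom (S : Fin k → Kˣ) (T : Fin e → Fin k → Kˣ) (q : MvPolynomial (V n e) K) :
    scale (fun x => (cof S T x : K)) (sHom ι q) = sHom ι (scale (blk ι S T) q) := by
  have h : (scale (fun x => (cof S T x : K))).comp (sHom (e := e) (n := n) ι) =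
      (sHom ι).comp (scale (blk ι S T)) := by
    apply MvPolynomial.algHom_ext
    intro x
    rw [AlgHom.comp_apply, AlgHom.comp_apply, sHom_X]
    have h1 : (scale (blk ι S T) (X x) : MvPolynomial (V n e) K) = C (blk ι S T x) * X x := by
      rw [scale, aeval_X]
    rw [h1, map_mul, sHom_C, sHom_X]
    rcases sVal_cases (K := K) ι x with ⟨y, rfl⟩ | ⟨h2, h3⟩ | h2
    · rw [sVal_emb, blk_emb, scale, aeval_X]
    · rw [sVal_one ι h2 h3, blk_one ι S T h2 h3, map_one, map_one, mul_one]
    · rw [h2, map_zero, mul_zero]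
  exact DFunLike.congr_fun h q

theorem sHom_earlier (p : ℕ → MvPolynomial (V n e) K) (j : ℕ) {q : MvPolynomial (V n e) K}
    (hq : q ∈ Earlier p j) : sHom ι q ∈ Earlier (fun i => sHom ι (p i)) j := by
  rw [Earlier] at hq
  induction hq using Submodule.span_induction with
  | mem x hx =>
    rcases hx with (hx | ⟨y, rfl⟩) | ⟨i, hi, rfl⟩
    · rw [Set.mem_singleton_iff.1 hx, map_one]
      exact Submodule.subset_span (Or.inl (Or.inl rfl))
    · rw [sHom_X]
      rcases sVal_cases (K := K) ι y with ⟨z, rfl⟩ | ⟨h2, h3⟩ | h2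
      · rw [sVal_emb]
        exact Submodule.subset_span (Or.inl (Or.inr ⟨z, rfl⟩))
      · rw [sVal_one ι h2 h3]
        exact Submodule.subset_span (Or.inl (Or.inl rfl))
      · rw [h2]
        exact Submodule.zero_mem _
    · exact Submodule.subset_span (Or.inr ⟨i, hi, rfl⟩)
  | zero => rw [map_zero]; exact Submodule.zero_mem _
  | add x y _ _ hx hy => rw [map_add]; exact Submodule.add_mem _ hx hy
  | smul c x _ hx => rw [map_smul]; exact Submodule.smul_mem _ _ hx

theorem sHom_quad (p : ℕ → MvPolynomial (V n e) K) (j : ℕ) {q : MvPolynomial (V n e) K}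
    (hq : q ∈ Earlier p j * Earlier p j) :
    sHom ι q ∈ Earlier (fun i => sHom ι (p i)) j * Earlier (fun i => sHom ι (p i)) j := by
  induction hq using Submodule.mul_induction_on' with
  | mem_mul_mem x hx y hy =>
    rw [map_mul]
    exact Submodule.mul_mem_mul (sHom_earlier ι p j hx) (sHom_earlier ι p j hy)
  | add x _ y _ hx hy => rw [map_add]; exact Submodule.add_mem _ hx hy

/-- the tuple of permutations of the big set -/
noncomputable def sPsi (τ : Fin e → Equiv.Perm (Fin k)) : Fin e → Equiv.Perm (Fin n) :=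
  fun s => (τ s).viaEmbedding ι

theorem sPsi_inj : Function.Injective (sPsi (e := e) ι) := by
  intro τ τ' h
  funext s
  ext a
  have h1 := congrArg (fun σ : Fin e → Equiv.Perm (Fin n) => σ s (ι a)) h
  simp only [sPsi, Equiv.Perm.viaEmbedding_apply] at h1
  exact congrArg _ (ι.injective h1)

theorem mono_prod {X' : Type*} [Fintype X'] {m : ℕ} (σ : Fin e → Equiv.Perm (Fin m))
    (f : V m e → MvPolynomial X' K) (r : K) :
    aeval f (monomial (mon σ univ) r) = C r * ∏ i, f (i, fun s => σ s i) := by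
  rw [aeval_monomial, algebraMap_eq, mon, ← Finsupp.prod_finsetSum_index (fun a => pow_zero _)
    (fun a b c => pow_add _ _ _)]
  congr 1
  refine Finset.prod_congr rfl fun i _ => ?_
  exact (Finsupp.prod_single_index (h := fun a b => f a ^ b) (pow_zero _)).trans (pow_one _)

theorem sVal_prod_zero {σ : Fin e → Equiv.Perm (Fin n)} (hσ : σ ∉ Set.range (sPsi (e := e) ι)) :
    (∏ i, (sVal ι (i, fun s => σ s i) : MvPolynomial (V k e) K)) = 0 := by
  by_contra h0
  rw [Finset.prod_eq_zero_iff] at h0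
  push Not at h0
  apply hσ
  -- the permutations fix the complement of the block
  have h1 : ∀ i, i ∉ Set.range ι → ∀ s, σ s i = i := by
    intro i hi s
    rcases sVal_cases (K := K) ι (i, fun s => σ s i) with ⟨y, hy⟩ | ⟨h2, h3⟩ | h2
    · exact absurd ⟨y.1, congrArg Prod.fst hy⟩ hi
    · exact h3 s
    · exact absurd h2 (h0 i (Finset.mem_univ _))
  have h2 : ∀ (s : Fin e) (a : Fin k), ∃ b, ι b = σ s (ι a) := by
    intro s a
    rcases sVal_cases (K := K) ι (ι a, fun s => σ s (ι a)) with ⟨y, hy⟩ | ⟨h2, h3⟩ | h2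
    · exact ⟨y.2 s, congrFun (congrArg Prod.snd hy) s⟩
    · exact absurd ⟨a, rfl⟩ h2
    · exact absurd h2 (h0 (ι a) (Finset.mem_univ _))
  choose g hg using h2
  have hinj : ∀ s, Function.Injective (g s) := by
    intro s a b hab
    apply ι.injective
    apply (σ s).injective
    rw [← hg, ← hg, hab]
  refine ⟨fun s => Equiv.ofBijective (g s) (Finite.injective_iff_bijective.1 (hinj s)), ?_⟩
  funext s
  ext i
  by_cases hi : i ∈ Set.range ι
  · obtain ⟨a, rfl⟩ := hi
    rw [sPsi, Equiv.Perm.viaEmbedding_apply, Equiv.ofBijective_apply, hg]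
  · rw [sPsi, Equiv.Perm.viaEmbedding_apply_of_notMem _ _ _ hi, h1 i hi]

theorem sVal_prod (τ : Fin e → Equiv.Perm (Fin k)) :
    (∏ i, (sVal ι (i, fun s => sPsi ι τ s i) : MvPolynomial (V k e) K)) =
      ∏ a, X (a, fun s => τ s a) := by
  rw [← Finset.prod_subset (Finset.subset_univ (univ.map ι))]
  · rw [Finset.prod_map]
    refine Finset.prod_congr rfl fun a _ => ?_
    rw [← sVal_emb ι]
    congr 1
    refine Prod.ext rfl ?_
    funext s
    exact Equiv.Perm.viaEmbedding_apply _ _ _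
  · intro i _ hi
    have hi' : i ∉ Set.range ι := by
      rintro ⟨a, rfl⟩
      exact hi (Finset.mem_map_of_mem _ (Finset.mem_univ _))
    exact sVal_one ι hi' fun s => Equiv.Perm.viaEmbedding_apply_of_notMem _ _ _ hi'

theorem sHom_form (a : (Fin e → Equiv.Perm (Fin n)) → K) :
    sHom ι (form a) = form (fun τ : Fin e → Equiv.Perm (Fin k) => a fun s => (τ s).viaEmbedding ι) := by
  rw [form, form, map_sum]
  symm
  refine Finset.sum_of_injOn (sPsi ι) (sPsi_inj ι).injOn (fun _ _ => Finset.mem_coe.2 (Finset.mem_univ _)) ?_ ?_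
  · intro σ _ hσ
    have hσ' : σ ∉ Set.range (sPsi (e := e) ι) := by
      rintro ⟨τ, rfl⟩
      exact hσ ⟨τ, Finset.mem_coe.2 (Finset.mem_univ _), rfl⟩
    rw [sHom, mono_prod, sVal_prod_zero ι hσ', mul_zero]
  · intro τ _
    rw [sHom, mono_prod, sVal_prod]
    have h1 := mono_prod τ (X : V k e → MvPolynomial (V k e) K) (a fun s => (τ s).viaEmbedding ι)
    rw [aeval_X_left_apply] at h1
    exact h1

end sub

theorem t_SUB : S_SUB := by
  intro K _ n e k ι S T a G p m hp ha
  refine ⟨fun i => sHom ι (p i), fun j hj => ?_, ?_⟩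
  · obtain ⟨⟨r, hr⟩, h⟩ := hp j hj
    refine ⟨⟨r, ?_⟩, ?_⟩
    · rw [scale_sHom, hr, map_mul, sHom_C]
    rcases h with h | ⟨M, B, D, hM, hB, hD, hs, hd⟩ | ⟨M, b, μ, χ, hM, hs, hd⟩
    · exact Or.inl (sHom_quad ι p j h)
    · refine Or.inr (Or.inl ⟨M.map (sHom ι), B, D, fun u v => sHom_earlier ι p j (hM u v), hB, hD,
        ?_, ?_⟩)
      · have h1 : (M.map (sHom ι)).map (scale fun x => (cof S T x : K)) =
            (M.map (scale (blk ι S T))).map (sHom ι) := by
          ext1 u v
          exact scale_sHom ι S T (M u v)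
        have h2 : ∀ A : Matrix (Fin (m j)) (Fin (m j)) K,
            (A.map C : Matrix _ _ (MvPolynomial (V n e) K)).map (sHom ι) = A.map C := by
          intro A
          ext1 u v
          exact sHom_C ι (A u v)
        rw [h1, hs, Matrix.map_mul, Matrix.map_mul, h2, h2]
      · show sHom ι (p j) = _
        rw [hd]
        exact AlgHom.map_det (sHom ι) M
    · refine Or.inr (Or.inr ⟨M.map (sHom ι), b, μ, χ, fun u v => sHom_earlier ι p j (hM u v),
        fun u v => ?_, ?_⟩)
      · show scale _ (sHom ι (M u v)) = _ * sHom ι (M u v)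
        rw [scale_sHom, hs, map_mul, sHom_C]
      · show sHom ι (p j) = _
        rw [hd, map_sum]
        refine Finset.sum_congr rfl fun π _ => ?_
        rw [map_mul, sHom_C, map_prod]
        rfl
  · rw [← sHom_form]
    exact sHom_earlier ι p G ha

end Pool.Agent.Helper1x.EC
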