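import Pool.Agent.Helper1x.EC.Def

/-!
# Project EC (helper1), piece UP (helper21): the upper bound
-/

set_option autoImplicit false
set_option linter.all false

namespace Pool.Agent.Helper1x.EC

open Finset

namespace UpP

variable {K : Type} [Field K] {n e : ℕ}

/-- The sum of the monomials of the matchings of the first `k` rows with `B`. -/
noncomputable def P (K : Type) [Field K] {n e : ℕ} : ℕ → (Fin e → Finset (Fin n)) → MvPolynomial (V n e) K
  | 0, _ => 1
  | k + 1, B => if h : k < n then
      ∑ c ∈ Fintype.piFinset B, MvPolynomial.X (⟨k, h⟩, c) * P K k (fun s => (B s).erase (c s)) else 0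

theorem cond_iff (k : ℕ) (B : Fin e → Finset (Fin n)) (c : Fin e → Fin n) (g : Fin k → Fin e → Fin n) :
    ((∀ i s, (Fin.snoc g c : Fin (k + 1) → Fin e → Fin n) i s ∈ B s) ∧
      (∀ s, Function.Injective fun i => (Fin.snoc g c : Fin (k + 1) → Fin e → Fin n) i s)) ↔
    c ∈ Fintype.piFinset B ∧ (∀ i s, g i s ∈ (B s).erase (c s)) ∧ ∀ s, Function.Injective fun i => g i s := by
  constructor
  · rintro ⟨h1, h2⟩
    refine ⟨Fintype.mem_piFinset.2 fun s => ?_, fun i s => mem_erase.2 ⟨?_, ?_⟩, fun s i j hij => ?_⟩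
    · have h3 := h1 (Fin.last k) s
      rwa [Fin.snoc_last] at h3
    · intro h3
      have h4 := h2 s (a₁ := i.castSucc) (a₂ := Fin.last k) (by
        simp only [Fin.snoc_castSucc, Fin.snoc_last]
        exact h3)
      exact absurd h4 (Fin.castSucc_lt_last i).ne
    · have h3 := h1 i.castSucc s
      rwa [Fin.snoc_castSucc] at h3
    · have h4 := h2 s (a₁ := i.castSucc) (a₂ := j.castSucc) (by
        simp only [Fin.snoc_castSucc]
        exact hij)
      exact Fin.castSucc_injective _ h4
  · rintro ⟨h1, h2, h3⟩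
    rw [Fintype.mem_piFinset] at h1
    refine ⟨fun i s => ?_, fun s i j hij => ?_⟩
    · induction i using Fin.lastCases with
      | last => rw [Fin.snoc_last]; exact h1 s
      | cast i => rw [Fin.snoc_castSucc]; exact (mem_erase.1 (h2 i s)).2
    · induction i using Fin.lastCases with
      | last =>
        induction j using Fin.lastCases with
        | last => rfl
        | cast j =>
          simp only [Fin.snoc_castSucc, Fin.snoc_last] at hij
          exact absurd hij.symm (mem_erase.1 (h2 j s)).1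
      | cast i =>
        induction j using Fin.lastCases with
        | last =>
          simp only [Fin.snoc_castSucc, Fin.snoc_last] at hij
          exact absurd hij (mem_erase.1 (h2 i s)).1
        | cast j =>
          simp only [Fin.snoc_castSucc] at hij
          rw [h3 s hij]

open scoped Classical in
theorem P_eq (k : ℕ) (hk : k ≤ n) (B : Fin e → Finset (Fin n)) :
    P K k B = ∑ g : Fin k → Fin e → Fin n,
      if (∀ i s, g i s ∈ B s) ∧ (∀ s, Function.Injective fun i => g i s) then
        ∏ i, MvPolynomial.X (Fin.castLE hk i, g i) else 0 := by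
  induction k generalizing B with
  | zero =>
    rw [Fintype.sum_unique, if_pos]
    · simp [P]
    · exact ⟨fun i => i.elim0, fun s i => i.elim0⟩
  | succ k ih =>
    have hkn : k < n := hk
    rw [← Equiv.sum_comp (Fin.snocEquiv fun _ => Fin e → Fin n), Fintype.sum_prod_type]
    rw [P, dif_pos hkn]
    rw [← Finset.sum_subset (Finset.subset_univ (Fintype.piFinset B))]
    · refine Finset.sum_congr rfl fun c hc => ?_
      rw [ih hkn.le, Finset.mul_sum]
      refine Finset.sum_congr rfl fun g _ => ?_
      rw [mul_ite, mul_zero]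
      have h1 := cond_iff k B c g
      show _ = if ((∀ i s, (Fin.snoc g c : Fin (k + 1) → Fin e → Fin n) i s ∈ B s) ∧
        (∀ s, Function.Injective fun i => (Fin.snoc g c : Fin (k + 1) → Fin e → Fin n) i s)) then
        ∏ i, MvPolynomial.X (Fin.castLE hk i, (Fin.snoc g c : Fin (k + 1) → Fin e → Fin n) i) else 0
      by_cases h2 : (∀ i s, g i s ∈ (B s).erase (c s)) ∧ ∀ s, Function.Injective fun i => g i s
      · rw [if_pos h2, if_pos (h1.2 ⟨hc, h2⟩), Fin.prod_univ_castSucc, mul_comm]
        congr 1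
        · refine Finset.prod_congr rfl fun i _ => ?_
          rw [Fin.snoc_castSucc]
          rfl
        · rw [Fin.snoc_last]
          rfl
      · rw [if_neg h2, if_neg fun h3 => h2 (h1.1 h3).2]
    · intro c _ hc
      refine Finset.sum_eq_zero fun g _ => ?_
      show (if ((∀ i s, (Fin.snoc g c : Fin (k + 1) → Fin e → Fin n) i s ∈ B s) ∧
        (∀ s, Function.Injective fun i => (Fin.snoc g c : Fin (k + 1) → Fin e → Fin n) i s)) then
        ∏ i, MvPolynomial.X (Fin.castLE hk i, (Fin.snoc g c : Fin (k + 1) → Fin e → Fin n) i) else 0) = 0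
      rw [if_neg fun h3 => hc ((cond_iff k B c g).1 h3).1]

/-- The sum over all the matchings. -/
theorem P_top : ∑ σ : Fin e → Equiv.Perm (Fin n), MvPolynomial.monomial (mon σ univ) (1 : K) =
    P K n fun _ => univ := by
  classical
  rw [P_eq n le_rfl, ← Finset.sum_filter]
  refine Finset.sum_bij (fun σ _ => fun i s => σ s i) ?_ ?_ ?_ ?_
  · intro σ _
    refine mem_filter.2 ⟨mem_univ _, fun i s => mem_univ _, fun s => (σ s).injective⟩
  · intro σ _ σ' _ h
    funext s
    ext i
    exact congrArg Fin.val (congrFun (congrFun h i) s)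
  · intro g hg
    obtain ⟨-, -, h2⟩ := mem_filter.1 hg
    exact ⟨fun s => Equiv.ofBijective _ (Finite.injective_iff_bijective.1 (h2 s)), mem_univ _, rfl⟩
  · intro σ _
    rw [mon, MvPolynomial.monomial_sum_one]
    rfl

/-- The torus. -/
theorem P_scale (S : Fin n → Kˣ) (T : Fin e → Fin n → Kˣ) (k : ℕ) (hk : k ≤ n)
    (B : Fin e → Finset (Fin n)) (hB : ∀ s, (B s).card = k) : ∃ a : K,
    a = ((∏ i : Fin k, S (Fin.castLE hk i) : Kˣ) : K) * ((∏ s, ∏ j ∈ B s, T s j : Kˣ) : K) ∧
    scale (fun x => (cof S T x : K)) (P K k B) = MvPolynomial.C a * P K k B := by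
  refine ⟨_, rfl, ?_⟩
  induction k generalizing B with
  | zero =>
    have h1 : ∏ s, ∏ j ∈ B s, T s j = 1 := by
      refine Finset.prod_eq_one fun s _ => ?_
      rw [Finset.card_eq_zero.1 (hB s), Finset.prod_empty]
    rw [h1]
    simp [P]
  | succ k ih =>
    have hkn : k < n := hk
    rw [P, dif_pos hkn, map_sum, Finset.mul_sum]
    refine Finset.sum_congr rfl fun c hc => ?_
    rw [Fintype.mem_piFinset] at hc
    rw [map_mul, ih hkn.le (fun s => (B s).erase (c s)) (fun s => by
      rw [card_erase_of_mem (hc s), hB]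
      rfl)]
    have h1 : scale (fun x => (cof S T x : K)) (MvPolynomial.X ((⟨k, hkn⟩ : Fin n), c)) =
        MvPolynomial.C ((cof S T ((⟨k, hkn⟩ : Fin n), c) : Kˣ) : K) * MvPolynomial.X ((⟨k, hkn⟩ : Fin n), c) := by
      rw [scale, MvPolynomial.aeval_X]
    rw [h1]
    have h2 : (cof S T ((⟨k, hkn⟩ : Fin n), c)) *
        ((∏ i : Fin k, S (Fin.castLE hkn.le i)) * ∏ s, ∏ j ∈ (B s).erase (c s), T s j) =
        (∏ i : Fin (k + 1), S (Fin.castLE hk i)) * ∏ s, ∏ j ∈ B s, T s j := by
      rw [Fin.prod_univ_castSucc]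
      have h3 : ∏ s, ∏ j ∈ B s, T s j = (∏ s, T s (c s)) * ∏ s, ∏ j ∈ (B s).erase (c s), T s j := by
        rw [← Finset.prod_mul_distrib]
        exact Finset.prod_congr rfl fun s _ => (Finset.mul_prod_erase _ _ (hc s)).symm
      rw [h3]
      show (S ⟨k, hkn⟩ * ∏ s, T s (c s)) * _ = ((∏ i : Fin k, S (Fin.castLE hkn.le i)) * S ⟨k, hkn⟩) * _
      simp only [mul_assoc, mul_comm, mul_left_comm]
    have h3 := congrArg (fun u : Kˣ => MvPolynomial.C (σ := V n e) (u : K)) h2
    simp only [Units.val_mul, MvPolynomial.C_mul] at h3 ⊢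
    rw [← h3]
    ring

end UpP

open UpP in
/-- **UP.** -/
theorem t_UP : S_UP := by
  classical
  intro K _ n e hn he
  set G : ℕ := Fintype.card (Fin e → Finset (Fin n)) with hG
  have hGc : G = 2 ^ (e * n) := by
    rw [hG, Fintype.card_fun, Fintype.card_finset, Fintype.card_fin, Fintype.card_fin, ← pow_mul, mul_comm]
  let s₀ : Fin e := ⟨0, he⟩
  let f : (Fin e → Finset (Fin n)) → ℕ := fun B => (B s₀).card
  let ε₀ : Fin G ≃ (Fin e → Finset (Fin n)) := (Fintype.equivFin _).symm
  let π : Equiv.Perm (Fin G) := Tuple.sort (f ∘ ε₀)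
  let ε : Fin G ≃ (Fin e → Finset (Fin n)) := π.trans ε₀
  have hmono : Monotone (f ∘ ε) := Tuple.monotone_sort (f ∘ ε₀)
  let Q : (Fin e → Finset (Fin n)) → MvPolynomial (V n e) K := fun B =>
    if ∀ s, (B s).card = f B then P K (f B) B else 0
  let p : ℕ → MvPolynomial (V n e) K := fun k => if h : k < G then Q (ε ⟨k, h⟩) else 0
  have hmem : ∀ (k : ℕ) (B : Fin e → Finset (Fin n)), ((ε.symm B : Fin G) : ℕ) < k → Q B ∈ Earlier p k := by
    intro k B h
    refine Submodule.subset_span (Or.inr ⟨_, h, ?_⟩)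
    show (if h : ((ε.symm B : Fin G) : ℕ) < G then Q (ε ⟨_, h⟩) else 0) = Q B
    rw [dif_pos (ε.symm B).2]
    congr 1
    exact ε.apply_symm_apply B
  have h1mem : ∀ k, (1 : MvPolynomial (V n e) K) ∈ Earlier p k := fun k =>
    Submodule.subset_span (Or.inl (Or.inl rfl))
  have hXmem : ∀ k (x : V n e), (MvPolynomial.X x : MvPolynomial (V n e) K) ∈ Earlier p k := fun k x =>
    Submodule.subset_span (Or.inl (Or.inr ⟨x, rfl⟩))
  have hcard : ∀ B : Fin e → Finset (Fin n), f B ≤ n := fun B => by
    have := Finset.card_le_univ (B s₀)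
    rwa [Fintype.card_fin] at this
  have hQ : ∀ B, (∀ s, (B s).card = f B) → Q B = P K (f B) B := fun B h => if_pos h
  have hQ' : ∀ B, ¬ (∀ s, (B s).card = f B) → Q B = 0 := fun B h => if_neg h
  clear_value Q
  refine ⟨G, p, hGc.le, ?_, ?_⟩
  · intro S T k hk
    have hpk : p k = Q (ε ⟨k, hk⟩) := dif_pos hk
    constructor
    · rw [hpk]
      by_cases h : ∀ s, ((ε ⟨k, hk⟩) s).card = f (ε ⟨k, hk⟩)
      · obtain ⟨a, -, ha⟩ := P_scale S T (f (ε ⟨k, hk⟩)) (hcard _) (ε ⟨k, hk⟩) h
        refine ⟨a, ?_⟩
        rw [hQ _ h]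
        exact ha
      · refine ⟨0, ?_⟩
        rw [hQ' _ h]
        simp
    · left
      show p k ∈ Earlier p k * Earlier p k
      rw [hpk]
      by_cases h : ∀ s, ((ε ⟨k, hk⟩) s).card = f (ε ⟨k, hk⟩)
      · rw [hQ _ h]
        rcases Nat.eq_zero_or_pos (f (ε ⟨k, hk⟩)) with h0 | h0
        · rw [h0]
          show (1 : MvPolynomial (V n e) K) ∈ _
          rw [← mul_one (1 : MvPolynomial (V n e) K)]
          exact Submodule.mul_mem_mul (h1mem k) (h1mem k)
        · obtain ⟨l, hl⟩ : ∃ l, f (ε ⟨k, hk⟩) = l + 1 := ⟨f (ε ⟨k, hk⟩) - 1, by omega⟩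
          rw [hl, P]
          have hln : l < n := by
            have := hcard (ε ⟨k, hk⟩)
            omega
          rw [dif_pos hln]
          refine Submodule.sum_mem _ fun c hc => ?_
          rw [Fintype.mem_piFinset] at hc
          refine Submodule.mul_mem_mul (hXmem k _) ?_
          set B' : Fin e → Finset (Fin n) := fun s => ((ε ⟨k, hk⟩) s).erase (c s) with hB'
          have h1 : ∀ s, (B' s).card = l := by
            intro s
            rw [hB']
            show (((ε ⟨k, hk⟩) s).erase (c s)).card = l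
            rw [card_erase_of_mem (hc s), h s, hl]
            rfl
          have h2 : f B' = l := h1 s₀
          have h3 : Q B' = P K l B' := by
            rw [hQ B' (by rw [h2]; exact h1), h2]
          rw [← h3]
          apply hmem
          by_contra hcon
          have h4 : (⟨k, hk⟩ : Fin G) ≤ ε.symm B' := not_lt.1 hcon
          have h5 := hmono h4
          simp only [Function.comp_apply, Equiv.apply_symm_apply] at h5
          rw [h2, hl] at h5
          omega
      · rw [hQ' _ h]
        exact Submodule.zero_mem _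
  · rw [P_top]
    have h1 : Q (fun _ => univ) = P K n fun _ => univ := by
      have h2 : f (fun _ => univ) = n := by
        show (univ : Finset (Fin n)).card = n
        rw [card_univ, Fintype.card_fin]
      rw [hQ _ (by
        intro s
        rw [h2, card_univ, Fintype.card_fin]), h2]
    rw [← h1]
    exact hmem G _ (ε.symm _).2

end Pool.Agent.Helper1x.EC
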